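import Mathlib

set_option autoImplicit false

namespace Pool.Agent.H615R2.Tri

theorem lt_even (U S : ℕ) (hU : 1 ≤ U) (h : U < S) :
    (S : ℤ) * (2 ^ U - 1) < U * (2 ^ S - 1) := by
  induction S, h using Nat.le_induction with
  | base =>
    have h1 : (1 : ℤ) ≤ U := by exact_mod_cast hU
    have h2 : (0 : ℤ) < 2 ^ U := by positivity
    push_cast
    rw [Nat.succ_eq_add_one, pow_succ]
    nlinarith [mul_nonneg (sub_nonneg.2 h1) h2.le]
  | succ S hS ih =>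
    have h1 : (1 : ℤ) ≤ U := by exact_mod_cast hU
    have h2 : (0 : ℤ) < 2 ^ U := by positivity
    have h3 : (2 : ℤ) ^ U ≤ 2 ^ S := pow_le_pow_right₀ (by norm_num) (by omega)
    push_cast
    rw [pow_succ]
    nlinarith [mul_nonneg (sub_nonneg.2 h1) (h2.le.trans h3)]

theorem lt_odd (U S : ℕ) (hU : 2 ≤ U) (h : U < S) :
    (S : ℤ) * (2 ^ U + 1) < U * (2 ^ S + 1) := by
  induction S, h using Nat.le_induction with
  | base =>
    have h1 : (2 : ℤ) ≤ U := by exact_mod_cast hU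
    have h2 : (4 : ℤ) ≤ 2 ^ U := by
      calc (4 : ℤ) = 2 ^ 2 := by norm_num
        _ ≤ 2 ^ U := pow_le_pow_right₀ (by norm_num) hU
    push_cast
    rw [Nat.succ_eq_add_one, pow_succ]
    nlinarith [mul_nonneg (sub_nonneg.2 h1) (sub_nonneg.2 h2)]
  | succ S hS ih =>
    have h1 : (2 : ℤ) ≤ U := by exact_mod_cast hU
    have h2 : (4 : ℤ) ≤ 2 ^ U := by
      calc (4 : ℤ) = 2 ^ 2 := by norm_num
        _ ≤ 2 ^ U := pow_le_pow_right₀ (by norm_num) hU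
    have h3 : (2 : ℤ) ^ U ≤ 2 ^ S := pow_le_pow_right₀ (by norm_num) (by omega)
    push_cast
    rw [pow_succ]
    nlinarith [mul_nonneg (sub_nonneg.2 h1) (sub_nonneg.2 (h2.trans h3))]

/-- the only trinomial `a t^(e+S) + b t^(e+U) + c t^e` with a double root at `1` and root `-2` is
a multiple of `t^3 - 3t + 2` -/
theorem key (U S : ℕ) (hU : 1 ≤ U) (h : U < S)
    (he : (S : ℤ) * ((-2) ^ U - 1) = U * ((-2) ^ S - 1)) : U = 1 := by
  have hS0 : (0 : ℤ) < S := by exact_mod_cast (by omega : 0 < S)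
  have hU0 : (0 : ℤ) < U := by exact_mod_cast (by omega : 0 < U)
  have p1 : (1 : ℤ) < 2 ^ U := one_lt_pow₀ (by norm_num) (by omega)
  have p2 : (1 : ℤ) < 2 ^ S := one_lt_pow₀ (by norm_num) (by omega)
  rcases Nat.even_or_odd S with hS | hS <;> rcases Nat.even_or_odd U with hU' | hU'
  · rw [hS.neg_pow, hU'.neg_pow] at he
    have := lt_even U S hU h
    omega
  · rw [hS.neg_pow, hU'.neg_pow] at he
    nlinarith [mul_pos hS0 (lt_trans one_pos p1), mul_pos hU0 (sub_pos.2 p2)]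
  · rw [hS.neg_pow, hU'.neg_pow] at he
    nlinarith [mul_pos hU0 (lt_trans one_pos p2), mul_pos hS0 (sub_pos.2 p1)]
  · rw [hS.neg_pow, hU'.neg_pow] at he
    by_contra hne
    have := lt_odd U S (by omega) h
    nlinarith

theorem key_rat (e1 e2 e3 : ℕ) (h1 : e3 < e2) (h2 : e2 < e1) (a1 a2 a3 : ℚ) (ha : a1 ≠ 0)
    (s0 : a1 + a2 + a3 = 0) (s1 : a1 * e1 + a2 * e2 + a3 * e3 = 0)
    (s2 : a1 * (-2) ^ e1 + a2 * (-2) ^ e2 + a3 * (-2) ^ e3 = 0) : e2 = e3 + 1 := by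
  obtain ⟨U, rfl⟩ := Nat.exists_eq_add_of_lt h1
  obtain ⟨S, rfl⟩ := Nat.exists_eq_add_of_lt (h1.trans h2)
  have hq : (-2 : ℚ) ^ e3 ≠ 0 := pow_ne_zero _ (by norm_num)
  have ha3 : a3 = -a1 - a2 := by linarith
  subst ha3
  have t1 : a1 * ((S : ℚ) + 1) + a2 * ((U : ℚ) + 1) = 0 := by
    push_cast at s1
    linarith
  have t2 : a1 * ((-2) ^ (S + 1) - 1) + a2 * ((-2) ^ (U + 1) - 1) = (0 : ℚ) := by
    have : (-2 : ℚ) ^ e3 * (a1 * ((-2) ^ (S + 1) - 1) + a2 * ((-2) ^ (U + 1) - 1)) = 0 := by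
      have e1 : (-2 : ℚ) ^ (e3 + S + 1) = (-2) ^ e3 * (-2) ^ (S + 1) := by
        rw [add_assoc, pow_add]
      have e2 : (-2 : ℚ) ^ (e3 + U + 1) = (-2) ^ e3 * (-2) ^ (U + 1) := by
        rw [add_assoc, pow_add]
      rw [e1, e2] at s2
      linarith
    exact (mul_eq_zero.1 this).resolve_left hq
  have t3 : a1 * (((S : ℚ) + 1) * ((-2) ^ (U + 1) - 1) - ((U : ℚ) + 1) * ((-2) ^ (S + 1) - 1)) = 0 := by
    linear_combination ((-2) ^ (U + 1) - 1) * t1 - ((U : ℚ) + 1) * t2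
  have t4 := (mul_eq_zero.1 t3).resolve_left ha
  have t5 : ((S + 1 : ℕ) : ℤ) * ((-2) ^ (U + 1) - 1) = ((U + 1 : ℕ) : ℤ) * ((-2) ^ (S + 1) - 1) := by
    have : (((S + 1 : ℕ) : ℤ) * ((-2) ^ (U + 1) - 1) : ℚ) = (((U + 1 : ℕ) : ℤ) * ((-2) ^ (S + 1) - 1) : ℚ) := by
      push_cast
      linarith
    exact_mod_cast this
  have := key (U + 1) (S + 1) (by omega) (by omega) t5
  omega

end Pool.Agent.H615R2.Tri
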