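import Mathlib
import Pool.Agent.H615R2.Tri.Num

set_option autoImplicit false

namespace Pool.Agent.H615R2.Tri

open MvPolynomial

abbrev R := MvPolynomial ℕ ℚ

/-- the coordinate `x_i - 1` centred at the point `(1,1,...)` -/
noncomputable def z (i : ℕ) : R := X i - 1

/-- Euler derivation `x_i d/dx_i` -/
noncomputable def D (i : ℕ) : Derivation ℚ R R := (X i : R) • pderiv i

noncomputable def E0 : R →ₗ[ℚ] ℚ := (aeval (fun _ : ℕ => (1 : ℚ))).toLinearMap
noncomputable def E1 (i : ℕ) : R →ₗ[ℚ] ℚ := E0 ∘ₗ (D i : R →ₗ[ℚ] R)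
noncomputable def E2 (i j : ℕ) : R →ₗ[ℚ] ℚ := E0 ∘ₗ (D i : R →ₗ[ℚ] R) ∘ₗ (D j : R →ₗ[ℚ] R)

theorem E0_mul (f g : R) : E0 (f * g) = E0 f * E0 g := by
  simp [E0]

theorem D_mul (i : ℕ) (f g : R) : D i (f * g) = f * D i g + g * D i f := by
  rw [Derivation.leibniz]
  simp [smul_eq_mul]

theorem E1_mul (i : ℕ) (f g : R) : E1 i (f * g) = E0 f * E1 i g + E0 g * E1 i f := by
  simp only [E1, LinearMap.comp_apply, Derivation.coeFn_coe, D_mul, map_add, E0_mul]

theorem E2_mul (i j : ℕ) (f g : R) : E2 i j (f * g) =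
    E0 f * E2 i j g + E1 i f * E1 j g + E1 j f * E1 i g + E0 g * E2 i j f := by
  simp only [E1, E2, LinearMap.comp_apply, Derivation.coeFn_coe, D_mul, map_add, E0_mul]
  ring

theorem D_monomial (i : ℕ) (m : ℕ →₀ ℕ) (c : ℚ) : D i (monomial m c) = monomial m (c * m i) := by
  have : D i (monomial m c) = X i * pderiv i (monomial m c) := rfl
  rw [this, X_mul_pderiv_monomial, nsmul_eq_mul, ← map_natCast C, C_mul_monomial]
  congr 1
  ring

theorem E0_monomial (m : ℕ →₀ ℕ) (c : ℚ) : E0 (monomial m c) = c := by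
  simp [E0, aeval_monomial]

theorem E1_monomial (i : ℕ) (m : ℕ →₀ ℕ) (c : ℚ) : E1 i (monomial m c) = c * m i := by
  simp only [E1, LinearMap.comp_apply, Derivation.coeFn_coe, D_monomial, E0_monomial]

theorem E2_monomial (i j : ℕ) (m : ℕ →₀ ℕ) (c : ℚ) :
    E2 i j (monomial m c) = c * (m i * m j) := by
  simp only [E2, LinearMap.comp_apply, Derivation.coeFn_coe, D_monomial, E0_monomial]
  ring

theorem E0_eq (f : R) : E0 f = ∑ m ∈ f.support, f.coeff m := by
  conv_lhs => rw [f.as_sum]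
  rw [map_sum]
  simp only [E0_monomial]

theorem E1_eq (i : ℕ) (f : R) : E1 i f = ∑ m ∈ f.support, f.coeff m * m i := by
  conv_lhs => rw [f.as_sum]
  rw [map_sum]
  simp only [E1_monomial]

theorem E2_eq (i j : ℕ) (f : R) : E2 i j f = ∑ m ∈ f.support, f.coeff m * (m i * m j) := by
  conv_lhs => rw [f.as_sum]
  rw [map_sum]
  simp only [E2_monomial]

theorem z_eq (i : ℕ) : z i = monomial (Finsupp.single i 1) 1 - monomial 0 1 := by
  simp [z, X]

theorem E0_z (i : ℕ) : E0 (z i) = 0 := by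
  rw [z_eq, map_sub, E0_monomial, E0_monomial, sub_self]

theorem E1_z (i a : ℕ) : E1 i (z a) = if i = a then 1 else 0 := by
  rw [z_eq, map_sub, E1_monomial, E1_monomial, Finsupp.single_apply]
  by_cases h : i = a
  · simp [h]
  · simp [h, Ne.symm h]

/-- evaluation at `(-2, 1, 1, ...)` -/
noncomputable def EP : R →ₗ[ℚ] ℚ := (aeval (fun i : ℕ => if i = 0 then (-2 : ℚ) else 1)).toLinearMap

theorem EP_mul (f g : R) : EP (f * g) = EP f * EP g := by
  simp [EP]

theorem EP_monomial (m : ℕ →₀ ℕ) (c : ℚ) : EP (monomial m c) = c * (-2) ^ m 0 := by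
  simp only [EP, AlgHom.toLinearMap_apply, aeval_monomial, Algebra.algebraMap_self, RingHom.id_apply]
  congr 1
  rw [Finsupp.prod]
  by_cases h : 0 ∈ m.support
  · rw [Finset.prod_eq_single 0]
    · simp
    · intro b _ hb
      simp [hb]
    · intro h'
      exact absurd h h'
  · rw [Finset.prod_eq_one]
    · rw [Finsupp.notMem_support_iff.1 h, pow_zero]
    · intro b hb
      have : b ≠ 0 := fun h' => h (h' ▸ hb)
      simp [this]

theorem EP_eq (f : R) : EP f = ∑ m ∈ f.support, f.coeff m * (-2) ^ m 0 := by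
  conv_lhs => rw [f.as_sum]
  rw [map_sum]
  simp only [EP_monomial]

/-- a quadratic form with coefficients affine in a parameter: list of `(e, e', i, j)` standing for
`(e + e' p) v_i v_j` -/
abbrev QF := List (ℤ × ℤ × ℕ × ℕ)

def cf {K : Type*} [CommRing K] (p : ℕ) (t : ℤ × ℤ × ℕ × ℕ) : K := (t.1 : K) + (t.2.1 : K) * (p : K)

def qv {K : Type*} [CommRing K] (p : ℕ) (q : QF) (v : ℕ → K) : K :=
  (q.map (fun t => cf p t * (v t.2.2.1 * v t.2.2.2))).sum

def ind (t : ℤ × ℤ × ℕ × ℕ) (a b : ℕ) : ℤ :=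
  (if t.2.2.1 = a ∧ t.2.2.2 = b then 1 else 0) + (if t.2.2.1 = b ∧ t.2.2.2 = a then 1 else 0)

def s0 (q : QF) (a b : ℕ) : ℤ := (q.map (fun t => t.1 * ind t a b)).sum
def s1 (q : QF) (a b : ℕ) : ℤ := (q.map (fun t => t.2.1 * ind t a b)).sum

def sp (p : ℕ) (q : QF) (a b : ℕ) : ℚ := (s0 q a b : ℚ) + (p : ℚ) * (s1 q a b : ℚ)

theorem sp_eq (p : ℕ) (q : QF) (a b : ℕ) :
    sp p q a b = (q.map (fun t => (cf p t : ℚ) * (ind t a b : ℚ))).sum := by
  unfold sp s0 s1
  induction q with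
  | nil => simp
  | cons t q ih =>
    simp only [List.map_cons, List.sum_cons, Int.cast_add, Int.cast_mul]
    rw [← ih]
    simp only [cf]
    ring

noncomputable def G (p : ℕ) (Qs : List QF) (n a b : ℕ) : R :=
  z a * z b + ∑ k ∈ Finset.range Qs.length,
    C (sp p (Qs.getD k []) a b) * (z (n + 1 + k) * z 0)

def G1 (p : ℕ) (Qs : List QF) (n : ℕ) : Set R :=
  {f | ∃ a b d, a ≤ n ∧ b ≤ n ∧ d ≤ n ∧ f = z a * z b * z d} ∪
  {f | ∃ a b, a ≤ n ∧ b ≤ n ∧ f = G p Qs n a b}

def G2 (n : ℕ) : Set R := {X 0 + 2} ∪ {f | ∃ a, 1 ≤ a ∧ a ≤ n ∧ f = z a}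

theorem E0_zz (a b : ℕ) : E0 (z a * z b) = 0 := by rw [E0_mul, E0_z, zero_mul]
theorem E1_zz (i a b : ℕ) : E1 i (z a * z b) = 0 := by
  rw [E1_mul, E0_z, E0_z, zero_mul, zero_mul, add_zero]
theorem E2_zz (i j a b : ℕ) : E2 i j (z a * z b) =
    (if i = a ∧ j = b then 1 else 0) + (if i = b ∧ j = a then 1 else 0) := by
  rw [E2_mul, E0_z, E0_z, E1_z, E1_z, E1_z, E1_z]
  simp only [ite_and]
  split_ifs <;> norm_num

theorem E2_Cmul (i j : ℕ) (c : ℚ) (f : R) : E2 i j (C c * f) = c * E2 i j f := by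
  rw [← smul_eq_C_mul, map_smul, smul_eq_mul]

theorem E1_Cmul (i : ℕ) (c : ℚ) (f : R) : E1 i (C c * f) = c * E1 i f := by
  rw [← smul_eq_C_mul, map_smul, smul_eq_mul]

theorem E0_Cmul (c : ℚ) (f : R) : E0 (C c * f) = c * E0 f := by
  rw [← smul_eq_C_mul, map_smul, smul_eq_mul]

def Bd (n : ℕ) (q : QF) : Prop := ∀ t ∈ q, t.2.2.1 ≤ n ∧ t.2.2.2 ≤ n

theorem bd_getD {n : ℕ} {Qs : List QF} (h : ∀ q ∈ Qs, Bd n q) (k : ℕ) : Bd n (Qs.getD k []) := by
  rcases lt_or_ge k Qs.length with hk | hk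
  · rw [List.getD_eq_getElem _ _ hk]
    exact h _ (List.getElem_mem hk)
  · rw [List.getD_eq_default _ _ hk]
    intro t ht
    simp at ht

theorem ann1 {p : ℕ} {Qs : List QF} {n : ℕ} (hb : ∀ q ∈ Qs, Bd n q) {f : R}
    (hf : f ∈ Ideal.span (G1 p Qs n)) :
    E0 f = 0 ∧ (∀ i, E1 i f = 0) ∧
    (∀ k < Qs.length, ((Qs.getD k []).map (fun t => (cf p t : ℚ) * E2 t.2.2.1 t.2.2.2 f)).sum
      = E2 (n + 1 + k) 0 f) ∧
    (∀ k < Qs.length, E2 (n + 1 + k) (n + 1 + k) f = 0) := by
  refine Submodule.span_induction (p := fun f _ => E0 f = 0 ∧ (∀ i, E1 i f = 0) ∧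
    (∀ k < Qs.length, ((Qs.getD k []).map (fun t => (cf p t : ℚ) * E2 t.2.2.1 t.2.2.2 f)).sum
      = E2 (n + 1 + k) 0 f) ∧
    (∀ k < Qs.length, E2 (n + 1 + k) (n + 1 + k) f = 0)) ?_ ?_ ?_ ?_ hf
  · rintro f (⟨a, b, d, ha, hb', hd, rfl⟩ | ⟨a, b, ha, hb', rfl⟩)
    · have h2 : ∀ i j, E2 i j (z a * z b * z d) = 0 := by
        intro i j
        rw [E2_mul, E0_zz, E1_zz, E1_zz, E0_z]
        ring
      refine ⟨?_, ?_, ?_, ?_⟩
      · rw [E0_mul, E0_z, mul_zero]
      · intro i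
        rw [E1_mul, E0_zz, E0_z]
        ring
      · intro k _
        simp [h2]
      · intro k _
        exact h2 _ _
    · have hG : ∀ i j, E2 i j (G p Qs n a b) = ((if i = a ∧ j = b then 1 else 0) +
          (if i = b ∧ j = a then 1 else 0)) + ∑ l ∈ Finset.range Qs.length,
          sp p (Qs.getD l []) a b * ((if i = n + 1 + l ∧ j = 0 then 1 else 0) +
            (if i = 0 ∧ j = n + 1 + l then 1 else 0)) := by
        intro i j
        simp only [G, map_add, map_sum, E2_Cmul, E2_zz]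
      refine ⟨?_, ?_, ?_, ?_⟩
      · simp only [G, map_add, map_sum, E0_Cmul, E0_zz]
        simp
      · intro i
        simp only [G, map_add, map_sum, E1_Cmul, E1_zz]
        simp
      · intro k hk
        have hbk := bd_getD hb k
        have e1 : ((Qs.getD k []).map (fun t => (cf p t : ℚ) * E2 t.2.2.1 t.2.2.2 (G p Qs n a b)))
            = ((Qs.getD k []).map (fun t => (cf p t : ℚ) * (ind t a b : ℚ))) := by
          apply List.map_congr_left
          intro t ht
          congr 1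
          rw [hG, Finset.sum_eq_zero, add_zero]
          · simp only [ind]
            push_cast
            rfl
          · intro l _
            have h3 := hbk t ht
            rw [if_neg (by omega), if_neg (by omega)]
            ring
        rw [e1, ← sp_eq, hG, if_neg (by omega), if_neg (by omega), Finset.sum_eq_single k]
        · simp
        · intro l _ hl
          rw [if_neg (by omega), if_neg (by omega)]
          ring
        · intro h
          exact absurd (Finset.mem_range.2 hk) h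
      · intro k hk
        rw [hG, if_neg (by omega), if_neg (by omega), Finset.sum_eq_zero]
        · ring
        · intro l _
          rw [if_neg (by omega), if_neg (by omega)]
          ring
  · simp
  · rintro f g _ _ ⟨f0, f1, f2, f3⟩ ⟨g0, g1, g2, g3⟩
    refine ⟨by rw [map_add, f0, g0, add_zero], fun i => by rw [map_add, f1, g1, add_zero],
      fun k hk => ?_, fun k hk => by rw [map_add, f3 k hk, g3 k hk, add_zero]⟩
    rw [map_add, ← f2 k hk, ← g2 k hk, ← List.sum_map_add]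
    congr 1
    apply List.map_congr_left
    intro t _
    rw [map_add]
    ring
  · rintro h f _ ⟨f0, f1, f2, f3⟩
    rw [smul_eq_mul]
    have h2 : ∀ i j, E2 i j (h * f) = E0 h * E2 i j f := by
      intro i j
      rw [E2_mul, f0, f1, f1]
      ring
    refine ⟨by rw [E0_mul, f0, mul_zero], fun i => by rw [E1_mul, f0, f1]; ring,
      fun k hk => ?_, fun k hk => by rw [h2, f3 k hk, mul_zero]⟩
    rw [h2, ← f2 k hk, ← List.sum_map_mul_left]
    congr 1
    apply List.map_congr_left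
    intro t _
    rw [h2]
    ring

theorem ann2 {n : ℕ} {f : R} (hf : f ∈ Ideal.span (G2 n)) : EP f = 0 := by
  refine Submodule.span_induction (p := fun f _ => EP f = 0) ?_ ?_ ?_ ?_ hf
  · rintro f (hf | ⟨a, ha, -, rfl⟩)
    · rw [Set.mem_singleton_iff] at hf
      subst hf
      simp [EP]
    · have : a ≠ 0 := by omega
      simp [EP, z, this]
  · simp
  · intro f g _ _ h1 h2
    rw [map_add, h1, h2, add_zero]
  · intro h f _ h1
    rw [smul_eq_mul, EP_mul, h1, mul_zero]

end Pool.Agent.H615R2.Tri
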