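import Mathlib
import Pool.Agent.H615R2.Tri.Alg

set_option autoImplicit false

namespace Pool.Agent.H615R2.Tri

open MvPolynomial

/-- separate the variables below `N` from the others -/
noncomputable def Sep (N : ℕ) : R →+* MvPolynomial ℕ R :=
  eval₂Hom ((C : R →+* MvPolynomial ℕ R).comp C) (fun i => if i < N then C (X i) else X i)

theorem Sep_X_lt {N i : ℕ} (h : i < N) : Sep N (X i) = C (X i) := by
  simp [Sep, h]

theorem Sep_X_ge {N i : ℕ} (h : ¬ i < N) : Sep N (X i) = X i := by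
  simp [Sep, h]

theorem Sep_C (N : ℕ) (c : ℚ) : Sep N (C c) = C (C c) := by
  simp [Sep]

theorem Sep_monomial_in {N : ℕ} (m : ℕ →₀ ℕ) (hm : ∀ i, ¬ i < N → m i = 0) (c : ℚ) :
    Sep N (monomial m c) = C (monomial m c) := by
  rw [monomial_eq, map_mul, map_mul, Sep_C, Finsupp.prod, map_prod, map_prod]
  congr 1
  apply Finset.prod_congr rfl
  intro i hi
  have : i < N := by
    by_contra h
    exact (Finsupp.mem_support_iff.1 hi) (hm i h)
  rw [map_pow, map_pow, Sep_X_lt this]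

theorem Sep_monomial_out {N : ℕ} (m : ℕ →₀ ℕ) (hm : ∀ i, i < N → m i = 0) :
    Sep N (monomial m 1) = monomial m 1 := by
  rw [monomial_eq, monomial_eq, map_mul, Sep_C, Finsupp.prod, map_prod, Finsupp.prod]
  simp only [map_one, one_mul]
  apply Finset.prod_congr rfl
  intro i hi
  have : ¬ i < N := by
    intro h
    exact (Finsupp.mem_support_iff.1 hi) (hm i h)
  rw [map_pow, Sep_X_ge this]

theorem Sep_monomial {N : ℕ} (m : ℕ →₀ ℕ) (c : ℚ) :
    Sep N (monomial m c) = monomial (m.filter (fun i => ¬ i < N))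
      (monomial (m.filter (fun i => i < N)) c) := by
  have h : monomial m c = (monomial (m.filter (fun i => i < N)) c : R) *
      monomial (m.filter (fun i => ¬ i < N)) 1 := by
    rw [monomial_mul, Finsupp.filter_add_filter_not, mul_one]
  rw [h, map_mul, Sep_monomial_in, Sep_monomial_out, C_mul_monomial, mul_one]
  · intro i hi
    rw [Finsupp.filter_apply, if_neg (by simpa using hi)]
  · intro i hi
    rw [Finsupp.filter_apply, if_neg hi]

theorem Sep_coeff {N : ℕ} (f : R) (δ : ℕ →₀ ℕ) :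
    (Sep N f).coeff δ = ∑ m ∈ f.support.filter (fun m => m.filter (fun i => ¬ i < N) = δ),
      monomial (m.filter (fun i => i < N)) (f.coeff m) := by
  conv_lhs => rw [f.as_sum]
  rw [map_sum, coeff_sum, Finset.sum_filter]
  apply Finset.sum_congr rfl
  intro m _
  rw [Sep_monomial, coeff_monomial]

theorem split_inj {N : ℕ} {m m' : ℕ →₀ ℕ} (h1 : m.filter (fun i => i < N) = m'.filter (fun i => i < N))
    (h2 : m.filter (fun i => ¬ i < N) = m'.filter (fun i => ¬ i < N)) : m = m' := by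
  rw [← Finsupp.filter_add_filter_not m (fun i => i < N), h1, h2,
    Finsupp.filter_add_filter_not]

theorem Sep_coeff_coeff {N : ℕ} (f : R) (m : ℕ →₀ ℕ) :
    ((Sep N f).coeff (m.filter (fun i => ¬ i < N))).coeff (m.filter (fun i => i < N)) =
      f.coeff m := by
  rw [Sep_coeff, coeff_sum]
  simp only [coeff_monomial]
  by_cases hm : m ∈ f.support
  · rw [Finset.sum_eq_single m]
    · simp
    · intro b hb hbm
      rw [if_neg]
      intro h
      exact hbm (split_inj h (Finset.mem_filter.1 hb).2)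
    · intro h
      exfalso
      apply h
      simp only [Finset.mem_filter, hm, true_and]
  · rw [Finset.sum_eq_zero, notMem_support_iff.1 hm]
    intro b hb
    rw [if_neg]
    intro h
    rw [Finset.mem_filter] at hb
    exact hm (split_inj h hb.2 ▸ hb.1)

theorem Sep_coeff_card {N : ℕ} (f : R) (δ : ℕ →₀ ℕ) :
    ((Sep N f).coeff δ).support.card ≤ f.support.card := by
  have h : ((Sep N f).coeff δ).support ⊆
      (f.support.filter (fun m => m.filter (fun i => ¬ i < N) = δ)).image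
        (fun m => m.filter (fun i => i < N)) := by
    intro a ha
    rw [mem_support_iff, Sep_coeff, coeff_sum] at ha
    obtain ⟨m, hm, h⟩ := Finset.exists_ne_zero_of_sum_ne_zero ha
    rw [coeff_monomial] at h
    rw [Finset.mem_image]
    refine ⟨m, hm, ?_⟩
    by_contra h'
    rw [if_neg h'] at h
    exact h rfl
  exact (Finset.card_le_card h).trans (Finset.card_image_le.trans (Finset.card_filter_le _ _))

theorem Sep_coeff_in {N : ℕ} (f : R) (δ : ℕ →₀ ℕ) :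
    ∀ a ∈ ((Sep N f).coeff δ).support, ∀ i, N ≤ i → a i = 0 := by
  intro a ha i hi
  rw [mem_support_iff, Sep_coeff, coeff_sum] at ha
  obtain ⟨m, hm, h⟩ := Finset.exists_ne_zero_of_sum_ne_zero ha
  rw [coeff_monomial] at h
  have : m.filter (fun i => i < N) = a := by
    by_contra h'
    rw [if_neg h'] at h
    exact h rfl
  rw [← this, Finsupp.filter_apply, if_neg (by omega)]

theorem Sep_z {N a : ℕ} (h : a < N) : Sep N (z a) = C (z a) := by
  simp only [z, map_sub, Sep_X_lt h, map_one]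

theorem Sep_G {N : ℕ} {p : ℕ} {Qs : List QF} {n a b : ℕ} (hN : n + 1 + Qs.length = N)
    (ha : a ≤ n) (hb : b ≤ n) : Sep N (G p Qs n a b) = C (G p Qs n a b) := by
  have h : ∀ k ∈ Finset.range Qs.length,
      Sep N (C (sp p (Qs.getD k []) a b) * (z (n + 1 + k) * z 0)) =
        C (C (sp p (Qs.getD k []) a b) * (z (n + 1 + k) * z 0)) := by
    intro k hk
    rw [Finset.mem_range] at hk
    rw [map_mul, map_mul, Sep_C, Sep_z (by omega), Sep_z (by omega), map_mul, map_mul]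
  rw [G, map_add, map_mul, Sep_z (by omega), Sep_z (by omega), map_sum, Finset.sum_congr rfl h,
    map_add, map_mul, map_sum]

theorem Sep_mem {N : ℕ} (I : Ideal R) (S : Set R) (hI : I = Ideal.span S)
    (hS : ∀ g ∈ S, Sep N g = C g) {f : R} (hf : f ∈ I) (δ : ℕ →₀ ℕ) :
    (Sep N f).coeff δ ∈ I := by
  have h1 : Sep N f ∈ I.map (C : R →+* MvPolynomial ℕ R) := by
    have h2 : Sep N f ∈ I.map (Sep N) := Ideal.mem_map_of_mem _ hf
    rw [hI, Ideal.map_span] at h2 ⊢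
    have : (Sep N : R → MvPolynomial ℕ R) '' S = (C : R →+* MvPolynomial ℕ R) '' S :=
      Set.image_congr hS
    rwa [this] at h2
  exact mem_map_C_iff.1 h1 δ

noncomputable def II (p : ℕ) (Qs : List QF) (n : ℕ) : Ideal R := Ideal.span (G1 p Qs n) * Ideal.span (G2 n)

open scoped Pointwise in
theorem II_eq (p : ℕ) (Qs : List QF) (n : ℕ) : II p Qs n = Ideal.span (G1 p Qs n * G2 n) := by
  rw [II, Ideal.span_mul_span']

open scoped Pointwise in
theorem II_gen {N : ℕ} {p : ℕ} {Qs : List QF} {n : ℕ} (hN : n + 1 + Qs.length = N)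
    {g : R} (hg : g ∈ G1 p Qs n * G2 n) : Sep N g = C g := by
  rw [Set.mem_mul] at hg
  obtain ⟨x, hx, y, hy, rfl⟩ := hg
  rw [map_mul, map_mul]
  congr 1
  · rcases hx with ⟨a, b, d, ha, hb', hd, rfl⟩ | ⟨a, b, ha, hb', rfl⟩
    · simp only [map_mul]
      rw [Sep_z (by omega), Sep_z (by omega), Sep_z (by omega)]
    · exact Sep_G hN ha hb'
  · rcases hy with hy | ⟨a, ha, ha', rfl⟩
    · rw [Set.mem_singleton_iff] at hy
      subst hy
      rw [map_add, map_add, Sep_X_lt (by omega), map_ofNat, map_ofNat]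
    · rw [Sep_z (by omega)]

theorem reduce {p : ℕ} {Qs : List QF} {n : ℕ} {f : R} (hf : f ∈ II p Qs n) (h0 : f ≠ 0)
    (hc : f.support.card ≤ 3) : ∃ g ∈ II p Qs n, g ≠ 0 ∧ g.support.card ≤ 3 ∧
      ∀ m ∈ g.support, ∀ i, n + 1 + Qs.length ≤ i → m i = 0 := by
  obtain ⟨m, hm⟩ := ne_zero_iff.1 h0
  refine ⟨(Sep (n + 1 + Qs.length) f).coeff (m.filter (fun i => ¬ i < (n + 1 + Qs.length))),
    Sep_mem _ _ (II_eq p Qs n) (fun g hg => II_gen rfl hg) hf _, ?_,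
    (Sep_coeff_card _ _).trans hc, Sep_coeff_in _ _⟩
  intro h
  apply hm
  rw [← Sep_coeff_coeff (N := n + 1 + Qs.length) f m, h, coeff_zero]

/-- the relations between the three exponent vectors and coefficients -/
structure TriRel (p : ℕ) (Qs : List QF) (n : ℕ) (m1 m2 m3 : ℕ →₀ ℕ) (a1 a2 a3 : ℚ) : Prop where
  z1 : a1 ≠ 0
  z2 : a2 ≠ 0
  z3 : a3 ≠ 0
  n12 : m1 ≠ m2
  n13 : m1 ≠ m3
  n23 : m2 ≠ m3
  e0 : a1 + a2 + a3 = 0
  e1 : ∀ i, a1 * m1 i + a2 * m2 i + a3 * m3 i = 0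
  eQ : ∀ k < Qs.length, ((Qs.getD k []).map (fun t => (cf p t : ℚ) *
    (a1 * (m1 t.2.2.1 * m1 t.2.2.2) + a2 * (m2 t.2.2.1 * m2 t.2.2.2) +
      a3 * (m3 t.2.2.1 * m3 t.2.2.2)))).sum
      = a1 * (m1 (n + 1 + k) * m1 0) + a2 * (m2 (n + 1 + k) * m2 0) +
        a3 * (m3 (n + 1 + k) * m3 0)
  ew : ∀ k < Qs.length, a1 * (m1 (n + 1 + k) * m1 (n + 1 + k)) +
    a2 * (m2 (n + 1 + k) * m2 (n + 1 + k)) + a3 * (m3 (n + 1 + k) * m3 (n + 1 + k)) = 0
  eP : a1 * (-2) ^ m1 0 + a2 * (-2) ^ m2 0 + a3 * (-2) ^ m3 0 = 0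
  i1 : ∀ i, n + 1 + Qs.length ≤ i → m1 i = 0
  i2 : ∀ i, n + 1 + Qs.length ≤ i → m2 i = 0
  i3 : ∀ i, n + 1 + Qs.length ≤ i → m3 i = 0

theorem TriRel.swap12 {p : ℕ} {Qs : List QF} {n : ℕ} {m1 m2 m3 : ℕ →₀ ℕ} {a1 a2 a3 : ℚ}
    (h : TriRel p Qs n m1 m2 m3 a1 a2 a3) : TriRel p Qs n m2 m1 m3 a2 a1 a3 where
  z1 := h.z2
  z2 := h.z1
  z3 := h.z3
  n12 := h.n12.symm
  n13 := h.n23
  n23 := h.n13
  e0 := by linarith [h.e0]
  e1 := fun i => by linarith [h.e1 i]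
  eQ := fun k hk => by
    have := h.eQ k hk
    rw [show a2 * ((m2 (n + 1 + k) : ℚ) * m2 0) + a1 * (m1 (n + 1 + k) * m1 0) +
        a3 * (m3 (n + 1 + k) * m3 0) = a1 * (m1 (n + 1 + k) * m1 0) +
          a2 * (m2 (n + 1 + k) * m2 0) + a3 * (m3 (n + 1 + k) * m3 0) by ring, ← this]
    congr 1
    apply List.map_congr_left
    intro t _
    ring
  ew := fun k hk => by linarith [h.ew k hk]
  eP := by linarith [h.eP]
  i1 := h.i2
  i2 := h.i1
  i3 := h.i3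

theorem TriRel.swap23 {p : ℕ} {Qs : List QF} {n : ℕ} {m1 m2 m3 : ℕ →₀ ℕ} {a1 a2 a3 : ℚ}
    (h : TriRel p Qs n m1 m2 m3 a1 a2 a3) : TriRel p Qs n m1 m3 m2 a1 a3 a2 where
  z1 := h.z1
  z2 := h.z3
  z3 := h.z2
  n12 := h.n13
  n13 := h.n12
  n23 := h.n23.symm
  e0 := by linarith [h.e0]
  e1 := fun i => by linarith [h.e1 i]
  eQ := fun k hk => by
    have := h.eQ k hk
    rw [show a1 * ((m1 (n + 1 + k) : ℚ) * m1 0) + a3 * (m3 (n + 1 + k) * m3 0) +
        a2 * (m2 (n + 1 + k) * m2 0) = a1 * (m1 (n + 1 + k) * m1 0) +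
          a2 * (m2 (n + 1 + k) * m2 0) + a3 * (m3 (n + 1 + k) * m3 0) by ring, ← this]
    congr 1
    apply List.map_congr_left
    intro t _
    ring
  ew := fun k hk => by linarith [h.ew k hk]
  eP := by linarith [h.eP]
  i1 := h.i1
  i2 := h.i3
  i3 := h.i2

theorem TriRel.Q {p : ℕ} {Qs : List QF} {n : ℕ} {m1 m2 m3 : ℕ →₀ ℕ} {a1 a2 a3 : ℚ}
    (h : TriRel p Qs n m1 m2 m3 a1 a2 a3) :
    ∃ ρ : ℚ, ρ ≠ 0 ∧ ρ ≠ 1 ∧ (∀ i, (m1 i : ℚ) - m3 i = ρ * ((m2 i : ℚ) - m3 i)) ∧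
      (∀ k < Qs.length, (m2 (n + 1 + k) : ℚ) - m3 (n + 1 + k) = 0) ∧
      (∀ k < Qs.length, qv p (Qs.getD k []) (fun i => (m2 i : ℤ) - m3 i) = (0 : ℤ)) := by
  have ha1 := h.z1
  have ha2 := h.z2
  have hρ : ∀ i, (m1 i : ℚ) - m3 i = -a2 / a1 * ((m2 i : ℚ) - m3 i) := by
    intro i
    have h0 := h.e0
    have h1 := h.e1 i
    field_simp
    have : a3 = -a1 - a2 := by linarith
    rw [this] at h1
    linarith
  set ρ : ℚ := -a2 / a1 with hρdef
  have hρa : a1 * ρ = -a2 := by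
    rw [hρdef]
    field_simp
  have hρ0 : ρ ≠ 0 := by
    intro h'
    rw [h', mul_zero] at hρa
    exact ha2 (by linarith)
  have hρ1 : ρ ≠ 1 := by
    intro h'
    apply h.n12
    ext i
    have := hρ i
    rw [h', one_mul] at this
    have h2 : (m1 i : ℚ) = m2 i := by linarith
    exact_mod_cast h2
  have ha3 : a3 = -a1 - a2 := by linarith [h.e0]
  have hE2 : ∀ i j, a1 * ((m1 i : ℚ) * m1 j) + a2 * (m2 i * m2 j) + a3 * (m3 i * m3 j) =
      a2 * (1 - ρ) * (((m2 i : ℚ) - m3 i) * (m2 j - m3 j)) := by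
    intro i j
    have hi : (m1 i : ℚ) = m3 i + ρ * (m2 i - m3 i) := by linarith [hρ i]
    have hj : (m1 j : ℚ) = m3 j + ρ * (m2 j - m3 j) := by linarith [hρ j]
    rw [hi, hj, ha3]
    have h2 : a1 * ρ = -a2 := hρa
    linear_combination (m3 j * ((m2 i : ℚ) - m3 i) + m3 i * ((m2 j : ℚ) - m3 j) +
      ρ * ((m2 i : ℚ) - m3 i) * ((m2 j : ℚ) - m3 j)) * h2
  have hc : a2 * (1 - ρ) ≠ 0 := mul_ne_zero ha2 (sub_ne_zero.2 (Ne.symm hρ1))
  have hw : ∀ k < Qs.length, (m2 (n + 1 + k) : ℚ) - m3 (n + 1 + k) = 0 := by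
    intro k hk
    have := h.ew k hk
    rw [hE2, mul_eq_zero, or_iff_right hc, mul_self_eq_zero] at this
    exact this
  refine ⟨ρ, hρ0, hρ1, hρ, hw, ?_⟩
  intro k hk
  have h1 := h.eQ k hk
  rw [hE2, hw k hk, zero_mul, mul_zero] at h1
  simp only [hE2] at h1
  have h2 : ((Qs.getD k []).map (fun t => (cf p t : ℚ) * (a2 * (1 - ρ) *
      (((m2 t.2.2.1 : ℚ) - m3 t.2.2.1) * (m2 t.2.2.2 - m3 t.2.2.2))))).sum
      = a2 * (1 - ρ) * ((qv p (Qs.getD k []) (fun i => (m2 i : ℤ) - m3 i) : ℤ) : ℚ) := by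
    rw [qv, Int.cast_list_sum, List.map_map, ← List.sum_map_mul_left]
    congr 1
    apply List.map_congr_left
    intro t _
    simp only [Function.comp, cf]
    push_cast
    ring
  rw [h2, mul_eq_zero, or_iff_right hc] at h1
  exact_mod_cast h1

theorem TriRel.ne0 {p : ℕ} {Qs : List QF} {n : ℕ} {m1 m2 m3 : ℕ →₀ ℕ} {a1 a2 a3 : ℚ}
    (h : TriRel p Qs n m1 m2 m3 a1 a2 a3)
    (hinf : ∀ v : ℕ → ℤ, v 0 = 0 → (∀ k < Qs.length, qv p (Qs.getD k []) v = 0) →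
      ∀ i ≤ n, v i = 0) : m2 0 ≠ m3 0 := by
  intro h0
  obtain ⟨ρ, hρ0, hρ1, hρ, hw, hQ⟩ := h.Q
  have := hinf _ (by simp [h0]) hQ
  apply h.n23
  ext i
  rcases Nat.lt_or_ge i (n + 1) with hi | hi
  · have := this i (by omega)
    omega
  · rcases Nat.lt_or_ge i (n + 1 + Qs.length) with hi' | hi'
    · have := hw (i - (n + 1)) (by omega)
      rw [show n + 1 + (i - (n + 1)) = i by omega] at this
      have h2 : (m2 i : ℚ) = m3 i := by linarith
      exact_mod_cast h2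
    · rw [h.i2 i hi', h.i3 i hi']

theorem TriRel.fin {p : ℕ} {Qs : List QF} {n : ℕ} {m1 m2 m3 : ℕ →₀ ℕ} {a1 a2 a3 : ℚ}
    (h : TriRel p Qs n m1 m2 m3 a1 a2 a3) (h1 : m3 0 < m2 0) (h2 : m2 0 < m1 0) :
    ∃ v : ℕ → ℤ, v 0 = 1 ∧ ∀ k < Qs.length, qv p (Qs.getD k []) v = 0 := by
  obtain ⟨ρ, hρ0, hρ1, hρ, hw, hQ⟩ := h.Q
  refine ⟨_, ?_, hQ⟩
  have := key_rat (m1 0) (m2 0) (m3 0) h1 h2 a1 a2 a3 h.z1 h.e0 (h.e1 0) h.eP
  simp only [this]
  push_cast
  ring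

theorem TriRel.main {p : ℕ} {Qs : List QF} {n : ℕ} {m1 m2 m3 : ℕ →₀ ℕ} {a1 a2 a3 : ℚ}
    (h : TriRel p Qs n m1 m2 m3 a1 a2 a3)
    (hinf : ∀ v : ℕ → ℤ, v 0 = 0 → (∀ k < Qs.length, qv p (Qs.getD k []) v = 0) →
      ∀ i ≤ n, v i = 0) :
    ∃ v : ℕ → ℤ, v 0 = 1 ∧ ∀ k < Qs.length, qv p (Qs.getD k []) v = 0 := by
  have h23 := h.ne0 hinf
  have h13 := h.swap12.ne0 hinf
  have h12 := h.swap23.swap12.ne0 hinf
  rcases lt_or_gt_of_ne h23 with h23 | h23
  · rcases lt_or_gt_of_ne h13 with h13 | h13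
    · rcases lt_or_gt_of_ne h12 with h12 | h12
      · exact h.swap12.swap23.swap12.fin h12 h23
      · exact h.swap23.swap12.fin h12 h13
    · exact h.swap23.fin h23 h13
  · rcases lt_or_gt_of_ne h13 with h13 | h13
    · exact h.swap12.swap23.fin h13 h23
    · rcases lt_or_gt_of_ne h12 with h12 | h12
      · exact h.swap12.fin h13 h12
      · exact h.fin h23 h12


theorem sound_three {p : ℕ} {Qs : List QF} {n : ℕ}
    (hinf : ∀ v : ℕ → ℤ, v 0 = 0 → (∀ k < Qs.length, qv p (Qs.getD k []) v = 0) →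
      ∀ i ≤ n, v i = 0) (g : R) (hc : g.support.card = 3)
    (hgin : ∀ m ∈ g.support, ∀ i, n + 1 + Qs.length ≤ i → m i = 0)
    (e0 : ∑ m ∈ g.support, g.coeff m = 0)
    (e1 : ∀ i, ∑ m ∈ g.support, g.coeff m * (m i : ℚ) = 0)
    (eQ : ∀ k < Qs.length, ((Qs.getD k []).map (fun t => (cf p t : ℚ) *
      (∑ m ∈ g.support, g.coeff m * ((m t.2.2.1 : ℚ) * m t.2.2.2)))).sum
      = ∑ m ∈ g.support, g.coeff m * ((m (n + 1 + k) : ℚ) * m 0))
    (ew : ∀ k < Qs.length, ∑ m ∈ g.support, g.coeff m *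
      ((m (n + 1 + k) : ℚ) * m (n + 1 + k)) = 0)
    (eP : ∑ m ∈ g.support, g.coeff m * (-2) ^ m 0 = 0) :
    ∃ v : ℕ → ℤ, v 0 = 1 ∧ ∀ k < Qs.length, qv p (Qs.getD k []) v = 0 := by
  obtain ⟨m1, m2, m3, h12, h13, h23, hm⟩ := Finset.card_eq_three.1 hc
  have h3 : ∀ F : (ℕ →₀ ℕ) → ℚ, ∑ m ∈ g.support, F m = F m1 + F m2 + F m3 := by
    intro F
    rw [hm, Finset.sum_insert (by simp [h12, h13]), Finset.sum_pair h23, add_assoc]
  simp only [h3] at e0 e1 eQ ew eP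
  have hm1 : m1 ∈ g.support := by rw [hm]; simp
  have hm2 : m2 ∈ g.support := by rw [hm]; simp
  have hm3 : m3 ∈ g.support := by rw [hm]; simp
  have T : TriRel p Qs n m1 m2 m3 (g.coeff m1) (g.coeff m2) (g.coeff m3) :=
    ⟨mem_support_iff.1 hm1, mem_support_iff.1 hm2, mem_support_iff.1 hm3, h12, h13, h23, e0, e1,
      eQ, ew, eP, hgin m1 hm1, hgin m2 hm2, hgin m3 hm3⟩
  exact T.main hinf

theorem not_one (g : R) (hc : g.support.card = 1) (e0 : ∑ m ∈ g.support, g.coeff m = 0) :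
    False := by
  obtain ⟨m, hm⟩ := Finset.card_eq_one.1 hc
  have hm' : m ∈ g.support := by rw [hm]; simp
  rw [hm, Finset.sum_singleton] at e0
  exact mem_support_iff.1 hm' e0

theorem not_two (g : R) (hc : g.support.card = 2) (e0 : ∑ m ∈ g.support, g.coeff m = 0)
    (e1 : ∀ i, ∑ m ∈ g.support, g.coeff m * (m i : ℚ) = 0) : False := by
  obtain ⟨m1, m2, h12, hm⟩ := Finset.card_eq_two.1 hc
  have hm1 : m1 ∈ g.support := by rw [hm]; simp
  have g1 := mem_support_iff.1 hm1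
  apply h12
  ext i
  have e1 := e1 i
  rw [hm, Finset.sum_pair h12] at e0 e1
  have : g.coeff m1 * ((m1 i : ℚ) - m2 i) = 0 := by
    have : g.coeff m2 = - g.coeff m1 := by linarith
    rw [this] at e1
    linarith
  rw [mul_eq_zero, or_iff_right g1] at this
  have h2 : (m1 i : ℚ) = m2 i := by linarith
  exact_mod_cast h2


theorem sound_aux {p : ℕ} {Qs : List QF} {n : ℕ} (hb : ∀ q ∈ Qs, Bd n q)
    (hinf : ∀ v : ℕ → ℤ, v 0 = 0 → (∀ k < Qs.length, qv p (Qs.getD k []) v = 0) →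
      ∀ i ≤ n, v i = 0) (g : R) (hg1 : g ∈ Ideal.span (G1 p Qs n)) (hg2 : g ∈ Ideal.span (G2 n))
    (hg0 : g ≠ 0) (hgc : g.support.card ≤ 3)
    (hgin : ∀ m ∈ g.support, ∀ i, n + 1 + Qs.length ≤ i → m i = 0) :
    ∃ v : ℕ → ℤ, v 0 = 1 ∧ ∀ k < Qs.length, qv p (Qs.getD k []) v = 0 := by
  obtain ⟨e0, e1, eQ, ew⟩ := ann1 hb hg1
  have eP := ann2 hg2
  rw [E0_eq] at e0
  rw [EP_eq] at eP
  have e1' : ∀ i, ∑ m ∈ g.support, g.coeff m * (m i : ℚ) = 0 := fun i => by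
    rw [← E1_eq]; exact e1 i
  have ew' : ∀ k < Qs.length, ∑ m ∈ g.support, g.coeff m *
      ((m (n + 1 + k) : ℚ) * m (n + 1 + k)) = 0 := fun k hk => by
    rw [← E2_eq]; exact ew k hk
  have eQ' : ∀ k < Qs.length, ((Qs.getD k []).map (fun t => (cf p t : ℚ) *
      (∑ m ∈ g.support, g.coeff m * ((m t.2.2.1 : ℚ) * m t.2.2.2)))).sum
      = ∑ m ∈ g.support, g.coeff m * ((m (n + 1 + k) : ℚ) * m 0) := fun k hk => by
    rw [← E2_eq, ← eQ k hk]
    congr 1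
    apply List.map_congr_left
    intro t _
    rw [← E2_eq]
  have hc0 : g.support.card ≠ 0 := by
    intro hc
    rw [Finset.card_eq_zero, MvPolynomial.support_eq_empty] at hc
    exact hg0 hc
  have hc1 : g.support.card ≠ 1 := fun hc => not_one g hc e0
  have hc2 : g.support.card ≠ 2 := fun hc => not_two g hc e0 e1'
  exact sound_three hinf g (by omega) hgin e0 e1' eQ' ew' eP

theorem II_le1 (p : ℕ) (Qs : List QF) (n : ℕ) : II p Qs n ≤ Ideal.span (G1 p Qs n) := by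
  unfold II
  exact Ideal.mul_le_left

theorem II_le2 (p : ℕ) (Qs : List QF) (n : ℕ) : II p Qs n ≤ Ideal.span (G2 n) := by
  unfold II
  exact Ideal.mul_le_right

theorem sound {p : ℕ} {Qs : List QF} {n : ℕ} (hb : ∀ q ∈ Qs, Bd n q)
    (hinf : ∀ v : ℕ → ℤ, v 0 = 0 → (∀ k < Qs.length, qv p (Qs.getD k []) v = 0) →
      ∀ i ≤ n, v i = 0)
    (h : ∃ f ∈ II p Qs n, f ≠ 0 ∧ f.support.card ≤ 3) :
    ∃ v : ℕ → ℤ, v 0 = 1 ∧ ∀ k < Qs.length, qv p (Qs.getD k []) v = 0 := by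
  obtain ⟨f, hf, hf0, hfc⟩ := h
  obtain ⟨g, hg, hg0, hgc, hgin⟩ := reduce hf hf0 hfc
  exact sound_aux hb hinf g (II_le1 p Qs n hg) (II_le2 p Qs n hg) hg0 hgc hgin

end Pool.Agent.H615R2.Tri
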