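import Mathlib
import Pool.Agent.H615R2.Tri.Sound

set_option autoImplicit false

namespace Pool.Agent.H615R2.Tri

open MvPolynomial

noncomputable def MM (n : ℕ) : Ideal R := Ideal.span {f | ∃ a, a ≤ n ∧ f = z a}

theorem z_mem {n a : ℕ} (h : a ≤ n) : z a ∈ MM n := Ideal.subset_span ⟨a, h, rfl⟩

theorem MM3_le (p : ℕ) (Qs : List QF) (n : ℕ) : MM n * MM n * MM n ≤ Ideal.span (G1 p Qs n) := by
  unfold MM
  rw [Ideal.span_mul_span', Ideal.span_mul_span']
  apply Ideal.span_mono
  intro f hf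
  rw [Set.mem_mul] at hf
  obtain ⟨x, hx, y, hy, rfl⟩ := hf
  rw [Set.mem_mul] at hx
  obtain ⟨x, hx, w, hw, rfl⟩ := hx
  obtain ⟨a, ha, rfl⟩ := hx
  obtain ⟨b, hb, rfl⟩ := hw
  obtain ⟨d, hd, rfl⟩ := hy
  exact Or.inl ⟨a, b, d, ha, hb, hd, rfl⟩

theorem X_eq_z (a : ℕ) : (X a : R) = z a + 1 := by simp [z]

theorem pow_mem_sq {n a : ℕ} (h : a ≤ n) (e : ℕ) :
    (X a : R) ^ e - 1 - (e : R) * z a ∈ MM n * MM n := by
  induction e with
  | zero => simp
  | succ e ih =>
    have h1 : (X a : R) ^ (e + 1) - 1 - ((e + 1 : ℕ) : R) * z a =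
        X a * ((X a : R) ^ e - 1 - (e : R) * z a) + (e : R) * (z a * z a) := by
      push_cast
      rw [pow_succ, X_eq_z]
      ring
    rw [h1]
    exact add_mem (Ideal.mul_mem_left _ _ ih)
      (Ideal.mul_mem_left _ _ (Ideal.mul_mem_mul (z_mem h) (z_mem h)))

theorem prod_mem_sq {n : ℕ} (e : ℕ → ℕ) (k : ℕ) (hk : k ≤ n + 1) :
    (∏ i ∈ Finset.range k, (X i : R) ^ e i) - 1 - ∑ i ∈ Finset.range k, (e i : R) * z i ∈
      MM n * MM n := by
  induction k with
  | zero => simp
  | succ k ih =>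
    have ih := ih (by omega)
    have hk' := pow_mem_sq (show k ≤ n by omega) (e k)
    have hs : ∑ i ∈ Finset.range k, (e i : R) * z i ∈ MM n := by
      apply sum_mem
      intro i hi
      rw [Finset.mem_range] at hi
      exact Ideal.mul_mem_left _ _ (z_mem (by omega))
    rw [Finset.prod_range_succ, Finset.sum_range_succ]
    generalize (∏ i ∈ Finset.range k, (X i : R) ^ e i) = A at *
    generalize (∑ i ∈ Finset.range k, (e i : R) * z i) = α at *
    have hz : (e k : R) * z k ∈ MM n := Ideal.mul_mem_left _ _ (z_mem (by omega))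
    generalize (e k : R) * z k = β at *
    generalize (X k : R) ^ e k = B at *
    have h1 : A * B - 1 - (α + β) = B * (A - 1 - α) + (1 + α) * (B - 1 - β) + α * β := by ring
    rw [h1]
    exact add_mem (add_mem (Ideal.mul_mem_left _ _ ih) (Ideal.mul_mem_left _ _ hk'))
      (Ideal.mul_mem_mul hs hz)

theorem sum_ind {n : ℕ} (v : ℕ → ℤ) (t : ℤ × ℤ × ℕ × ℕ) (h1 : t.2.2.1 ≤ n) (h2 : t.2.2.2 ≤ n) :
    ∑ a ∈ Finset.range (n + 1), ∑ b ∈ Finset.range (n + 1), v a * v b * ind t a b =
      2 * (v t.2.2.1 * v t.2.2.2) := by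
  have e1 : ∑ a ∈ Finset.range (n + 1), ∑ b ∈ Finset.range (n + 1),
      v a * v b * (if t.2.2.1 = a ∧ t.2.2.2 = b then (1 : ℤ) else 0) =
      v t.2.2.1 * v t.2.2.2 := by
    rw [Finset.sum_eq_single t.2.2.1, Finset.sum_eq_single t.2.2.2]
    · simp
    · intro b _ hb
      rw [if_neg (fun h => hb h.2.symm), mul_zero]
    · intro h
      exact absurd (Finset.mem_range.2 (by omega)) h
    · intro a _ ha
      apply Finset.sum_eq_zero
      intro b _
      rw [if_neg (fun h => ha h.1.symm), mul_zero]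
    · intro h
      exact absurd (Finset.mem_range.2 (by omega)) h
  have e2 : ∑ a ∈ Finset.range (n + 1), ∑ b ∈ Finset.range (n + 1),
      v a * v b * (if t.2.2.1 = b ∧ t.2.2.2 = a then (1 : ℤ) else 0) =
      v t.2.2.1 * v t.2.2.2 := by
    rw [Finset.sum_eq_single t.2.2.2, Finset.sum_eq_single t.2.2.1]
    · simp
      ring
    · intro b _ hb
      rw [if_neg (fun h => hb h.1.symm), mul_zero]
    · intro h
      exact absurd (Finset.mem_range.2 (by omega)) h
    · intro a _ ha
      apply Finset.sum_eq_zero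
      intro b _
      rw [if_neg (fun h => ha h.2.symm), mul_zero]
    · intro h
      exact absurd (Finset.mem_range.2 (by omega)) h
  simp only [ind, mul_add, Finset.sum_add_distrib, e1, e2]
  ring

theorem sum_sp {p n : ℕ} {q : QF} (hq : Bd n q) (v : ℕ → ℤ) :
    ∑ a ∈ Finset.range (n + 1), ∑ b ∈ Finset.range (n + 1),
      ((v a : ℚ) * (v b : ℚ)) * sp p q a b = 2 * ((qv p q v : ℤ) : ℚ) := by
  simp only [sp_eq]
  induction q with
  | nil => simp [qv]
  | cons t q ih =>
    have ih := ih (fun s hs => hq s (List.mem_cons_of_mem _ hs))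
    have ht := hq t List.mem_cons_self
    simp only [List.map_cons, List.sum_cons, mul_add, Finset.sum_add_distrib, ih]
    have h1 := sum_ind v t ht.1 ht.2
    have h2 : (∑ a ∈ Finset.range (n + 1), ∑ b ∈ Finset.range (n + 1),
        ((v a : ℚ) * (v b : ℚ)) * ((cf p t : ℚ) * (ind t a b : ℚ))) =
        (cf p t : ℚ) * ((∑ a ∈ Finset.range (n + 1), ∑ b ∈ Finset.range (n + 1),
          v a * v b * ind t a b : ℤ) : ℚ) := by
      push_cast
      rw [Finset.mul_sum]
      apply Finset.sum_congr rfl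
      intro a _
      rw [Finset.mul_sum]
      apply Finset.sum_congr rfl
      intro b _
      ring
    rw [h2, h1]
    simp only [qv, cf, List.map_cons, List.sum_cons]
    push_cast
    ring

theorem sq_mem {p : ℕ} {Qs : List QF} {n : ℕ} (hb : ∀ q ∈ Qs, Bd n q) (v : ℕ → ℤ)
    (hv : ∀ k < Qs.length, qv p (Qs.getD k []) v = 0) :
    (∑ i ∈ Finset.range (n + 1), C (v i : ℚ) * z i) * (∑ i ∈ Finset.range (n + 1), C (v i : ℚ) * z i) ∈
      Ideal.span (G1 p Qs n) := by
  have h : (∑ i ∈ Finset.range (n + 1), C (v i : ℚ) * z i) *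
      (∑ i ∈ Finset.range (n + 1), C (v i : ℚ) * z i) =
      ∑ a ∈ Finset.range (n + 1), ∑ b ∈ Finset.range (n + 1),
        C ((v a : ℚ) * (v b : ℚ)) * G p Qs n a b := by
    have h1 : ∀ k ∈ Finset.range Qs.length,
        ∑ a ∈ Finset.range (n + 1), ∑ b ∈ Finset.range (n + 1),
        C ((v a : ℚ) * (v b : ℚ)) * (C (sp p (Qs.getD k []) a b) * (z (n + 1 + k) * z 0)) = 0 := by
      intro k hk
      rw [Finset.mem_range] at hk
      have h2 := sum_sp (p := p) (bd_getD hb k) v
      rw [hv k hk] at h2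
      have h3 : ∑ a ∈ Finset.range (n + 1), ∑ b ∈ Finset.range (n + 1),
        C ((v a : ℚ) * (v b : ℚ)) * (C (sp p (Qs.getD k []) a b) * (z (n + 1 + k) * z 0)) =
        C (∑ a ∈ Finset.range (n + 1), ∑ b ∈ Finset.range (n + 1),
          ((v a : ℚ) * (v b : ℚ)) * sp p (Qs.getD k []) a b) * (z (n + 1 + k) * z 0) := by
        rw [map_sum, Finset.sum_mul]
        apply Finset.sum_congr rfl
        intro a _
        rw [map_sum, Finset.sum_mul]
        apply Finset.sum_congr rfl
        intro b _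
        rw [map_mul C _ (sp p (Qs.getD k []) a b)]
        ring
      rw [h3, h2]
      simp
    simp only [G, mul_add, Finset.sum_add_distrib, Finset.mul_sum]
    have h4 : ∑ a ∈ Finset.range (n + 1), ∑ b ∈ Finset.range (n + 1),
        ∑ k ∈ Finset.range Qs.length,
        C ((v a : ℚ) * (v b : ℚ)) * (C (sp p (Qs.getD k []) a b) * (z (n + 1 + k) * z 0)) = 0 := by
      rw [← Finset.sum_eq_zero h1, Finset.sum_comm]
      rw [Finset.sum_congr rfl (fun b _ => Finset.sum_comm)]
      rw [Finset.sum_comm]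
      apply Finset.sum_congr rfl
      intro k _
      rw [Finset.sum_comm]
    rw [h4, add_zero]
    rw [Finset.sum_comm]
    apply Finset.sum_congr rfl
    intro a _
    rw [Finset.sum_mul]
    apply Finset.sum_congr rfl
    intro b _
    rw [map_mul]
    ring
  rw [h]
  apply sum_mem
  intro a ha
  apply sum_mem
  intro b hb'
  rw [Finset.mem_range] at ha hb'
  exact Ideal.mul_mem_left _ _ (Ideal.subset_span (Or.inr ⟨a, b, by omega, by omega, rfl⟩))


theorem diff_sq_mem {p : ℕ} {Qs : List QF} {n : ℕ} (hb : ∀ q ∈ Qs, Bd n q) (v : ℕ → ℤ)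
    (hv : ∀ k < Qs.length, qv p (Qs.getD k []) v = 0) :
    ((∏ i ∈ Finset.range (n + 1), (X i : R) ^ (v i).toNat) -
      ∏ i ∈ Finset.range (n + 1), (X i : R) ^ (- v i).toNat) ^ 2 ∈ Ideal.span (G1 p Qs n) := by
  have h1 := prod_mem_sq (n := n) (fun i => (v i).toNat) (n + 1) le_rfl
  have h2 := prod_mem_sq (n := n) (fun i => (- v i).toNat) (n + 1) le_rfl
  have hl : (∑ i ∈ Finset.range (n + 1), C (v i : ℚ) * z i : R) =
      (∑ i ∈ Finset.range (n + 1), ((v i).toNat : R) * z i) -
        ∑ i ∈ Finset.range (n + 1), ((- v i).toNat : R) * z i := by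
    rw [← Finset.sum_sub_distrib]
    apply Finset.sum_congr rfl
    intro i _
    have h3 : (v i : ℤ) = (v i).toNat - (- v i).toNat := by omega
    have h4 : (C (v i : ℚ) : R) = ((v i).toNat : R) - ((- v i).toNat : R) := by
      conv_lhs => rw [h3]
      push_cast
      rw [map_sub, map_natCast, map_natCast]
    rw [h4]
    ring
  have hlm : (∑ i ∈ Finset.range (n + 1), C (v i : ℚ) * z i : R) ∈ MM n := by
    apply sum_mem
    intro i hi
    rw [Finset.mem_range] at hi
    exact Ideal.mul_mem_left _ _ (z_mem (by omega))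
  have hsq := sq_mem hb v hv
  have h3 := sub_mem h1 h2
  have hM := MM3_le p Qs n
  generalize (∏ i ∈ Finset.range (n + 1), (X i : R) ^ (v i).toNat) = P at *
  generalize (∏ i ∈ Finset.range (n + 1), (X i : R) ^ (- v i).toNat) = M at *
  generalize (∑ i ∈ Finset.range (n + 1), C (v i : ℚ) * z i : R) = ℓ at *
  generalize (∑ i ∈ Finset.range (n + 1), ((v i).toNat : R) * z i) = α at *
  generalize (∑ i ∈ Finset.range (n + 1), ((- v i).toNat : R) * z i) = β at *
  have he : P - M - ℓ ∈ MM n * MM n := by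
    rw [hl]
    convert h3 using 1
    ring
  have h4 : (P - M) ^ 2 = ℓ * ℓ + ((P - M - ℓ) * ℓ) * 2 + (P - M - ℓ) * (P - M - ℓ) := by ring
  rw [h4]
  have he1 : P - M - ℓ ∈ MM n := Ideal.mul_le_left he
  exact add_mem (add_mem hsq (Ideal.mul_mem_right _ _ (hM (Ideal.mul_mem_mul he hlm))))
    (hM (Ideal.mul_mem_mul he he1))

theorem add_mem2 {n : ℕ} (v : ℕ → ℤ) (hv0 : v 0 = 1) :
    (∏ i ∈ Finset.range (n + 1), (X i : R) ^ (v i).toNat) +
      2 * ∏ i ∈ Finset.range (n + 1), (X i : R) ^ (- v i).toNat ∈ Ideal.span (G2 n) := by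
  rw [← Ideal.Quotient.eq_zero_iff_mem]
  set π := Ideal.Quotient.mk (Ideal.span (G2 n)) with hπ
  have h0 : π (X 0) = -2 := by
    have : π (X 0 + 2) = 0 := Ideal.Quotient.eq_zero_iff_mem.2 (Ideal.subset_span (Or.inl rfl))
    rw [map_add, map_ofNat] at this
    exact eq_neg_of_add_eq_zero_left this
  have h1 : ∀ i ∈ Finset.range n, π (X (i + 1)) = 1 := by
    intro i hi
    rw [Finset.mem_range] at hi
    have : π (z (i + 1)) = 0 := Ideal.Quotient.eq_zero_iff_mem.2
      (Ideal.subset_span (Or.inr ⟨i + 1, by omega, by omega, rfl⟩))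
    rw [z, map_sub, map_one] at this
    exact sub_eq_zero.1 this
  have h2 : ∀ e : ℕ → ℕ, π (∏ i ∈ Finset.range (n + 1), (X i : R) ^ e i) = (-2) ^ e 0 := by
    intro e
    rw [Finset.prod_range_succ', map_mul, map_prod, Finset.prod_eq_one, one_mul, map_pow, h0]
    intro i hi
    rw [map_pow, h1 i hi, one_pow]
  rw [map_add, map_mul, map_ofNat, h2, h2, hv0, show (1 : ℤ).toNat = 1 from rfl,
    show (-1 : ℤ).toNat = 0 from rfl]
  ring

theorem complete {p : ℕ} {Qs : List QF} {n : ℕ} (hb : ∀ q ∈ Qs, Bd n q)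
    (h : ∃ v : ℕ → ℤ, v 0 = 1 ∧ ∀ k < Qs.length, qv p (Qs.getD k []) v = 0) :
    ∃ f ∈ II p Qs n, f ≠ 0 ∧ f.support.card ≤ 3 := by
  obtain ⟨v, hv0, hv⟩ := h
  have h1 := diff_sq_mem hb v hv
  have h2 := add_mem2 (n := n) v hv0
  have hmon : ∀ e : ℕ → ℕ, (∏ i ∈ Finset.range (n + 1), (X i : R) ^ e i) =
      monomial (∑ i ∈ Finset.range (n + 1), Finsupp.single i (e i)) 1 := by
    intro e
    rw [monomial_sum_one]
    apply Finset.prod_congr rfl
    intro i _
    rw [X_pow_eq_monomial]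
  have he0 : ∀ e : ℕ → ℕ, (∑ i ∈ Finset.range (n + 1), Finsupp.single i (e i)) 0 = e 0 := by
    intro e
    rw [Finsupp.finsetSum_apply, Finset.sum_eq_single 0]
    · simp
    · intro i _ hi
      rw [Finsupp.single_apply, if_neg hi]
    · intro h
      exact absurd (Finset.mem_range.2 (by omega)) h
  rw [hmon, hmon] at h1 h2
  have ha := he0 (fun i => (v i).toNat)
  have hb' := he0 (fun i => (- v i).toNat)
  simp only [hv0] at ha hb'
  generalize (∑ i ∈ Finset.range (n + 1), Finsupp.single i (v i).toNat) = a at *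
  generalize (∑ i ∈ Finset.range (n + 1), Finsupp.single i (- v i).toNat) = b at *
  have hf : (monomial a (1 : ℚ) - monomial b 1) ^ 2 * (monomial a 1 + 2 * monomial b 1) =
      monomial (a + a + a) (1 : ℚ) + (monomial (a + b + b) (-3 : ℚ) + monomial (b + b + b) (2 : ℚ)) := by
    have e1 : (monomial (a + a + a) (1 : ℚ) : R) = monomial a 1 * monomial a 1 * monomial a 1 := by
      rw [monomial_mul, monomial_mul]; norm_num
    have e2 : (monomial (a + b + b) (-3 : ℚ) : R) =
        (-3) * (monomial a 1 * monomial b 1 * monomial b 1) := by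
      rw [monomial_mul, monomial_mul, show (-3 : R) = C (-3) by rw [map_neg, map_ofNat],
        C_mul_monomial]
      norm_num
    have e3 : (monomial (b + b + b) (2 : ℚ) : R) =
        2 * (monomial b 1 * monomial b 1 * monomial b 1) := by
      rw [monomial_mul, monomial_mul, show (2 : R) = C 2 by rw [map_ofNat],
        C_mul_monomial]
      norm_num
    rw [e1, e2, e3]
    ring
  refine ⟨_, Ideal.mul_mem_mul h1 h2, ?_, ?_⟩
  · rw [hf]
    intro h0
    have := congrArg (coeff (a + a + a)) h0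
    rw [coeff_add, coeff_add, coeff_monomial, coeff_monomial, coeff_monomial, if_pos rfl,
      if_neg, if_neg, coeff_zero] at this
    · norm_num at this
    · intro h
      have := DFunLike.congr_fun h 0
      simp only [Finsupp.add_apply, ha, hb'] at this
      omega
    · intro h
      have := DFunLike.congr_fun h 0
      simp only [Finsupp.add_apply, ha, hb'] at this
      omega
  · rw [hf]
    have hs : (monomial (a + a + a) (1 : ℚ) + (monomial (a + b + b) (-3 : ℚ) +
        monomial (b + b + b) (2 : ℚ)) : R).support ⊆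
        {a + a + a, a + b + b, b + b + b} := by
      intro m hm
      rw [mem_support_iff, coeff_add, coeff_add, coeff_monomial, coeff_monomial,
        coeff_monomial] at hm
      simp only [Finset.mem_insert, Finset.mem_singleton]
      by_contra h'
      push Not at h'
      rw [if_neg (Ne.symm h'.1), if_neg (Ne.symm h'.2.1), if_neg (Ne.symm h'.2.2)] at hm
      exact hm (by norm_num)
    exact (Finset.card_le_card hs).trans Finset.card_le_three

theorem ideal_iff {p : ℕ} {Qs : List QF} {n : ℕ} (hb : ∀ q ∈ Qs, Bd n q)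
    (hinf : ∀ v : ℕ → ℤ, v 0 = 0 → (∀ k < Qs.length, qv p (Qs.getD k []) v = 0) →
      ∀ i ≤ n, v i = 0) :
    (∃ f ∈ II p Qs n, f ≠ 0 ∧ f.support.card ≤ 3) ↔
    ∃ v : ℕ → ℤ, v 0 = 1 ∧ ∀ k < Qs.length, qv p (Qs.getD k []) v = 0 :=
  ⟨sound hb hinf, complete hb⟩

end Pool.Agent.H615R2.Tri
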