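import Mathlib
import Pool.Agent.H615R2.Tri.Compl

set_option autoImplicit false

namespace Pool.Agent.H615R2.Tri

open MvPolynomial

abbrev PL := List (List ℕ × ℕ × ℕ)

noncomputable def evt (t : List ℕ × ℕ × ℕ) : R :=
  MvPolynomial.C ((t.2.1 : ℚ) - (t.2.2 : ℚ)) *
    (t.1.map (MvPolynomial.X : ℕ → MvPolynomial ℕ ℚ)).prod

noncomputable def ev (A : PL) : R := (A.map evt).sum

theorem ev_nil : ev [] = 0 := by simp [ev]

theorem ev_append (A B : PL) : ev (A ++ B) = ev A + ev B := by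
  simp [ev]

theorem ev_flatMap {α : Type*} (l : List α) (F : α → PL) :
    ev (l.flatMap F) = (l.map (fun a => ev (F a))).sum := by
  induction l with
  | nil => simp [ev]
  | cons a l ih => rw [List.flatMap_cons, ev_append, ih, List.map_cons, List.sum_cons]

def mulPL (A B : PL) : PL :=
  A.flatMap (fun s => B.map (fun t => (s.1 ++ t.1, s.2.1 * t.2.1 + s.2.2 * t.2.2,
    s.2.1 * t.2.2 + s.2.2 * t.2.1)))

theorem ev_mulPL (A B : PL) : ev (mulPL A B) = ev A * ev B := by
  rw [mulPL, ev_flatMap]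
  conv_rhs => rw [ev]
  rw [← List.sum_map_mul_right]
  congr 1
  apply List.map_congr_left
  intro s _
  rw [ev, ev, List.map_map, ← List.sum_map_mul_left]
  congr 1
  apply List.map_congr_left
  intro t _
  simp only [Function.comp, evt, List.map_append, List.prod_append]
  have h : (((s.2.1 * t.2.1 + s.2.2 * t.2.2 : ℕ) : ℚ) - ((s.2.1 * t.2.2 + s.2.2 * t.2.1 : ℕ) : ℚ)) =
      ((s.2.1 : ℚ) - (s.2.2 : ℚ)) * ((t.2.1 : ℚ) - (t.2.2 : ℚ)) := by
    push_cast
    ring
  rw [h, map_mul]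
  ring

def scl (p : ℕ) (B : PL) : PL := B.map (fun t => (t.1, p * t.2.1, p * t.2.2))

theorem ev_scl (p : ℕ) (B : PL) : ev (scl p B) = C (p : ℚ) * ev B := by
  rw [ev, ev, scl, List.map_map, ← List.sum_map_mul_left]
  congr 1
  apply List.map_congr_left
  intro t _
  simp only [Function.comp, evt]
  rw [← mul_assoc, ← map_mul]
  congr 2
  push_cast
  ring

def zl (a : ℕ) : PL := [([a], 1, 0), ([], 0, 1)]

theorem ev_zl (a : ℕ) : ev (zl a) = z a := by
  simp [ev, zl, evt, z]
  ring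

def cl (c : ℤ) : PL := [([], c.toNat, (-c).toNat)]

theorem ev_cl (c : ℤ) : ev (cl c) = C (c : ℚ) := by
  have h : (c : ℚ) = ((c.toNat : ℕ) : ℚ) - (((-c).toNat : ℕ) : ℚ) := by
    have : c = (c.toNat : ℤ) - ((-c).toNat : ℤ) := by omega
    exact_mod_cast this
  simp [ev, cl, evt, ← h]

def G1l (Qs : List QF) (n : ℕ) : List (PL × PL) :=
  ((List.range (n + 1)).flatMap fun a => (List.range (n + 1)).flatMap fun b =>
    (List.range (n + 1)).map fun d => (mulPL (mulPL (zl a) (zl b)) (zl d), [])) ++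
  ((List.range (n + 1)).flatMap fun a => (List.range (n + 1)).map fun b =>
    (mulPL (zl a) (zl b) ++ (List.range Qs.length).flatMap (fun k =>
      mulPL (cl (s0 (Qs.getD k []) a b)) (mulPL (zl (n + 1 + k)) (zl 0))),
    (List.range Qs.length).flatMap (fun k =>
      mulPL (cl (s1 (Qs.getD k []) a b)) (mulPL (zl (n + 1 + k)) (zl 0)))))

def G2l (n : ℕ) : List PL :=
  [([([0], 1, 0), ([], 2, 0)] : PL)] ++ (List.range n).map (fun a => zl (a + 1))

theorem sum_range_list {M : Type*} [AddCommMonoid M] (F : ℕ → M) (n : ℕ) :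
    ((List.range n).map F).sum = ∑ k ∈ Finset.range n, F k := rfl

theorem G1_eq (p : ℕ) (Qs : List QF) (n : ℕ) (f : R) :
    f ∈ G1 p Qs n ↔ ∃ AB ∈ G1l Qs n, f = ev AB.1 + C (p : ℚ) * ev AB.2 := by
  have hG : ∀ a b : ℕ, G p Qs n a b =
      ev (mulPL (zl a) (zl b) ++ (List.range Qs.length).flatMap (fun k =>
        mulPL (cl (s0 (Qs.getD k []) a b)) (mulPL (zl (n + 1 + k)) (zl 0)))) +
      C (p : ℚ) * ev ((List.range Qs.length).flatMap (fun k =>
        mulPL (cl (s1 (Qs.getD k []) a b)) (mulPL (zl (n + 1 + k)) (zl 0)))) := by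
    intro a b
    rw [ev_append, ev_flatMap, ev_flatMap]
    simp only [ev_mulPL, ev_zl, ev_cl]
    rw [sum_range_list, sum_range_list, G, Finset.mul_sum, add_assoc, ← Finset.sum_add_distrib]
    congr 1
    apply Finset.sum_congr rfl
    intro k _
    rw [sp, map_add, map_mul]
    ring
  constructor
  · rintro (⟨a, b, d, ha, hb, hd, rfl⟩ | ⟨a, b, ha, hb, rfl⟩)
    · refine ⟨(mulPL (mulPL (zl a) (zl b)) (zl d), []), ?_, ?_⟩
      · rw [G1l, List.mem_append]
        left
        simp only [List.mem_flatMap, List.mem_map, List.mem_range]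
        exact ⟨a, by omega, b, by omega, d, by omega, rfl⟩
      · simp only [ev_mulPL, ev_zl, ev_nil, mul_zero, add_zero]
    · refine ⟨(mulPL (zl a) (zl b) ++ (List.range Qs.length).flatMap (fun k =>
        mulPL (cl (s0 (Qs.getD k []) a b)) (mulPL (zl (n + 1 + k)) (zl 0))),
        (List.range Qs.length).flatMap (fun k =>
        mulPL (cl (s1 (Qs.getD k []) a b)) (mulPL (zl (n + 1 + k)) (zl 0)))), ?_, ?_⟩
      · rw [G1l, List.mem_append]
        right
        simp only [List.mem_flatMap, List.mem_map, List.mem_range]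
        exact ⟨a, by omega, b, by omega, rfl⟩
      · exact hG a b
  · rintro ⟨AB, hAB, rfl⟩
    rw [G1l, List.mem_append] at hAB
    simp only [List.mem_flatMap, List.mem_map, List.mem_range] at hAB
    rcases hAB with ⟨a, ha, b, hb, d, hd, rfl⟩ | ⟨a, ha, b, hb, rfl⟩
    · left
      refine ⟨a, b, d, by omega, by omega, by omega, ?_⟩
      simp only [ev_mulPL, ev_zl, ev_nil, mul_zero, add_zero]
    · right
      exact ⟨a, b, by omega, by omega, (hG a b).symm⟩

theorem G2_eq (n : ℕ) (f : R) : f ∈ G2 n ↔ ∃ A ∈ G2l n, f = ev A := by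
  have h0 : ev ([([0], 1, 0), ([], 2, 0)] : PL) = X 0 + 2 := by
    simp only [ev, evt, List.map_cons, List.map_nil, List.sum_cons, List.sum_nil, List.prod_cons,
      List.prod_nil, mul_one, Nat.cast_one, Nat.cast_zero, sub_zero, map_one, one_mul,
      add_zero, Nat.cast_ofNat]
    rw [map_ofNat]
  constructor
  · rintro (hf | ⟨a, ha, ha', rfl⟩)
    · rw [Set.mem_singleton_iff] at hf
      subst hf
      exact ⟨_, by simp [G2l], h0.symm⟩
    · refine ⟨zl a, ?_, (ev_zl a).symm⟩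
      rw [G2l, List.mem_append]
      right
      rw [List.mem_map]
      exact ⟨a - 1, List.mem_range.2 (by omega), by rw [Nat.sub_add_cancel ha]⟩
  · rintro ⟨A, hA, rfl⟩
    rw [G2l, List.mem_append, List.mem_singleton, List.mem_map] at hA
    rcases hA with rfl | ⟨a, ha, rfl⟩
    · left
      exact h0
    · right
      rw [List.mem_range] at ha
      exact ⟨a + 1, by omega, by omega, ev_zl _⟩

def base (Qs : List QF) (n : ℕ) : List (PL × PL) :=
  (G1l Qs n).flatMap (fun AB => (G2l n).map (fun h => (mulPL AB.1 h, mulPL AB.2 h)))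

def LL (Qs : List QF) (n : ℕ) (p : ℕ) : List PL :=
  (base Qs n).map (fun AB => AB.1 ++ AB.2.map (fun t => (t.1, p * t.2.1, p * t.2.2)))

open scoped Pointwise in
theorem span_LL (Qs : List QF) (n : ℕ) (p : ℕ) :
    Ideal.span {q : MvPolynomial ℕ ℚ | q ∈ (LL Qs n p).map (fun p => (p.map (fun t =>
      MvPolynomial.C ((t.2.1 : ℚ) - (t.2.2 : ℚ)) *
        (t.1.map (MvPolynomial.X : ℕ → MvPolynomial ℕ ℚ)).prod)).sum)} = II p Qs n := by
  rw [II_eq]
  congr 1
  ext q
  rw [Set.mem_ofPred_eq, Set.mem_mul]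
  have h1 : ∀ AB : PL × PL, (((AB.1 ++ AB.2.map (fun t => (t.1, p * t.2.1, p * t.2.2))).map
      (fun t => MvPolynomial.C ((t.2.1 : ℚ) - (t.2.2 : ℚ)) *
        (t.1.map (MvPolynomial.X : ℕ → MvPolynomial ℕ ℚ)).prod)).sum : R) =
      ev AB.1 + C (p : ℚ) * ev AB.2 := by
    intro AB
    rw [← ev_scl, ← ev_append]
    rfl
  constructor
  · intro h
    rw [LL, base, List.mem_map] at h
    obtain ⟨L, hL, rfl⟩ := h
    rw [List.mem_map] at hL
    obtain ⟨AB, hAB, rfl⟩ := hL
    rw [h1]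
    rw [List.mem_flatMap] at hAB
    obtain ⟨CD, hCD, hAB⟩ := hAB
    rw [List.mem_map] at hAB
    obtain ⟨h, hh, rfl⟩ := hAB
    refine ⟨ev CD.1 + C (p : ℚ) * ev CD.2, (G1_eq p Qs n _).2 ⟨CD, hCD, rfl⟩, ev h,
      (G2_eq n _).2 ⟨h, hh, rfl⟩, ?_⟩
    simp only [ev_mulPL]
    ring
  · rintro ⟨x, hx, y, hy, rfl⟩
    obtain ⟨CD, hCD, rfl⟩ := (G1_eq p Qs n _).1 hx
    obtain ⟨h, hh, rfl⟩ := (G2_eq n _).1 hy
    rw [LL, List.map_map, List.mem_map]
    refine ⟨(mulPL CD.1 h, mulPL CD.2 h), ?_, ?_⟩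
    · rw [base, List.mem_flatMap]
      exact ⟨CD, hCD, List.mem_map.2 ⟨h, hh, rfl⟩⟩
    · rw [Function.comp_apply, h1]
      simp only [ev_mulPL]
      ring

theorem LL_computable (Qs : List QF) (n : ℕ) : Computable (LL Qs n) := by
  apply Primrec.to_comp
  unfold LL
  refine Primrec.list_map (Primrec.const (base Qs n)) ?_
  refine Primrec.list_append.comp (Primrec.fst.comp Primrec.snd) ?_
  refine Primrec.list_map (Primrec.snd.comp Primrec.snd) ?_
  refine Primrec.pair (Primrec.fst.comp Primrec.snd) (Primrec.pair ?_ ?_)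
  · exact Primrec.nat_mul.comp (Primrec.fst.comp Primrec.fst)
      (Primrec.fst.comp (Primrec.snd.comp Primrec.snd))
  · exact Primrec.nat_mul.comp (Primrec.fst.comp Primrec.fst)
      (Primrec.snd.comp (Primrec.snd.comp Primrec.snd))

end Pool.Agent.H615R2.Tri
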