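import Mathlib
import Pool.Agent.Helper844.Sys
import Pool.Agent.H615R2.Tri.Alg

set_option autoImplicit false

namespace Pool.Agent.H615R2.Tri

open Pool.Agent.Helper844.Sys Pool.Agent.Helper844.Dio
open Nat.Partrec (Code)

theorem comp_pred {α β : Type*} [Primcodable α] [Primcodable β] {p : β → Prop} {g : α → β}
    (hp : ComputablePred p) (hg : Computable g) : ComputablePred (fun a => p (g a)) := by
  obtain ⟨f, hf, rfl⟩ := ComputablePred.computable_iff.1 hp
  exact ComputablePred.computable_iff.2 ⟨fun a => f (g a), hf.comp hg, rfl⟩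

/-- a recursively enumerable set that is not computable -/
theorem exists_halting : ∃ S : ℕ → Prop, REPred S ∧ ¬ ComputablePred S := by
  refine ⟨fun n => (Code.eval (Denumerable.ofNat Code n) 0).Dom, ?_, ?_⟩
  · have h1 : Partrec fun n : ℕ => Code.eval (Denumerable.ofNat Code n) 0 :=
      Code.eval_part.comp (Computable.ofNat Code) (Computable.const 0)
    exact h1.dom_re
  · intro h
    have h2 := comp_pred h (Computable.encode (α := Code))
    refine ComputablePred.halting_problem 0 (h2.of_eq fun c => ?_)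
    rw [Denumerable.ofNat_encode]

/-- system with variables `Fin d` -/
theorem exists_system_fin (S : ℕ → Prop) (hS : REPred S) :
    ∃ (d : ℕ) (f : Fin d) (L : List (Eqn (Fin d))), ∀ z : ℤ,
      (∃ x : Fin d → ℤ, x f = z ∧ ∀ q ∈ L, q.Holds x) ↔ ∃ n : ℕ, S n ∧ z = 1 - 4 * n := by
  obtain ⟨V, _, f, L, h⟩ := exists_system S (dprm hS)
  let e := Fintype.equivFin V
  refine ⟨Fintype.card V, e f, L.map (Eqn.map e), fun z => ?_⟩
  rw [← h z]
  constructor
  · rintro ⟨x, hx, hq⟩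
    refine ⟨x ∘ e, hx, fun q hqL => ?_⟩
    have := hq (q.map e) (List.mem_map.2 ⟨q, hqL, rfl⟩)
    rwa [Eqn.holds_map] at this
  · rintro ⟨x, hx, hq⟩
    refine ⟨x ∘ e.symm, by simpa using hx, fun q hqL => ?_⟩
    obtain ⟨q', hq', rfl⟩ := List.mem_map.1 hqL
    rw [Eqn.holds_map]
    have : (x ∘ e.symm) ∘ e = x := by
      funext v; simp
    rw [this]
    exact hq q' hq'

variable {d : ℕ}

def eqQ (q : Eqn (Fin d)) : QF :=
  [(q.e, 0, q.i + 1, q.j + 1), (q.a, 0, 0, q.k + 1), (q.b, 0, 0, q.l + 1),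
    (q.c, 0, 0, q.m + 1), (q.d, 0, 0, 0)]

def parQ (f : Fin d) : QF := [(1, 0, 0, f + 1), (-1, 4, 0, 0)]

def pellQ (d : ℕ) : QF := [(1, 0, d + 1, d + 1), (-2, 0, d + 2, d + 2), (-1, 0, 0, 0)]

def domQ (d i : ℕ) : QF :=
  [(1, 0, d + 1, d + 1), (-1, 0, i + 1, i + 1), (-1, 0, d + 3 + 4 * i, d + 3 + 4 * i),
    (-1, 0, d + 3 + 4 * i + 1, d + 3 + 4 * i + 1), (-1, 0, d + 3 + 4 * i + 2, d + 3 + 4 * i + 2),
    (-1, 0, d + 3 + 4 * i + 3, d + 3 + 4 * i + 3)]

def theQs (L : List (Eqn (Fin d))) (f : Fin d) : List QF :=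
  L.map eqQ ++ [parQ f, pellQ d] ++ (List.range d).map (domQ d)

def nn (d : ℕ) : ℕ := d + 2 + 4 * d

theorem qv_eqQ (p : ℕ) (q : Eqn (Fin d)) (v : ℕ → ℤ) : qv p (eqQ q) v =
    q.e * (v (q.i + 1) * v (q.j + 1)) + q.a * (v 0 * v (q.k + 1)) + q.b * (v 0 * v (q.l + 1)) +
      q.c * (v 0 * v (q.m + 1)) + q.d * (v 0 * v 0) := by
  simp only [qv, eqQ, cf, List.map_cons, List.map_nil, List.sum_cons, List.sum_nil, Int.cast_id,
    Int.cast_zero, zero_mul, add_zero]
  ring

theorem qv_parQ (p : ℕ) (f : Fin d) (v : ℕ → ℤ) : qv p (parQ f) v =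
    v 0 * v (f + 1) + (-1 + 4 * p) * (v 0 * v 0) := by
  simp only [qv, parQ, cf, List.map_cons, List.map_nil, List.sum_cons, List.sum_nil, Int.cast_id,
    zero_mul, add_zero]
  ring

theorem qv_pellQ (p : ℕ) (v : ℕ → ℤ) : qv p (pellQ d) v =
    v (d + 1) * v (d + 1) - 2 * (v (d + 2) * v (d + 2)) - v 0 * v 0 := by
  simp only [qv, pellQ, cf, List.map_cons, List.map_nil, List.sum_cons, List.sum_nil, Int.cast_id,
    zero_mul, add_zero]
  ring

theorem qv_domQ (p i : ℕ) (v : ℕ → ℤ) : qv p (domQ d i) v =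
    v (d + 1) * v (d + 1) - v (i + 1) * v (i + 1) -
      v (d + 3 + 4 * i) * v (d + 3 + 4 * i) - v (d + 3 + 4 * i + 1) * v (d + 3 + 4 * i + 1) -
      v (d + 3 + 4 * i + 2) * v (d + 3 + 4 * i + 2) -
      v (d + 3 + 4 * i + 3) * v (d + 3 + 4 * i + 3) := by
  simp only [qv, domQ, cf, List.map_cons, List.map_nil, List.sum_cons, List.sum_nil, Int.cast_id,
    zero_mul, add_zero]
  ring

theorem theQs_bd (L : List (Eqn (Fin d))) (f : Fin d) : ∀ q ∈ theQs L f, Bd (nn d) q := by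
  intro q hq
  have hfin : ∀ i : Fin d, (i : ℕ) < d := fun i => i.2
  rw [theQs, List.mem_append, List.mem_append, List.mem_map, List.mem_map] at hq
  rcases hq with (⟨q', _, rfl⟩ | hq) | ⟨i, hi, rfl⟩
  · have h1 := hfin q'.i
    have h2 := hfin q'.j
    have h3 := hfin q'.k
    have h4 := hfin q'.l
    have h5 := hfin q'.m
    intro t ht
    simp only [eqQ, List.mem_cons, List.not_mem_nil, or_false] at ht
    rcases ht with rfl | rfl | rfl | rfl | rfl <;> simp only [nn] <;> omega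
  · simp only [List.mem_cons, List.not_mem_nil, or_false] at hq
    have h1 := hfin f
    rcases hq with rfl | rfl
    · intro t ht
      simp only [parQ, List.mem_cons, List.not_mem_nil, or_false] at ht
      rcases ht with rfl | rfl <;> simp only [nn] <;> omega
    · intro t ht
      simp only [pellQ, List.mem_cons, List.not_mem_nil, or_false] at ht
      rcases ht with rfl | rfl | rfl <;> simp only [nn] <;> omega
  · rw [List.mem_range] at hi
    intro t ht
    simp only [domQ, List.mem_cons, List.not_mem_nil, or_false] at ht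
    rcases ht with rfl | rfl | rfl | rfl | rfl | rfl <;> simp only [nn] <;> omega

theorem forall_getD {Qs : List QF} {P : QF → Prop} :
    (∀ k < Qs.length, P (Qs.getD k [])) ↔ ∀ q ∈ Qs, P q := by
  constructor
  · intro h q hq
    obtain ⟨k, hk, rfl⟩ := List.mem_iff_getElem.1 hq
    have := h k hk
    rwa [List.getD_eq_getElem _ _ hk] at this
  · intro h k hk
    rw [List.getD_eq_getElem _ _ hk]
    exact h _ (List.getElem_mem hk)

theorem forall_theQs (L : List (Eqn (Fin d))) (f : Fin d) (P : QF → Prop) :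
    (∀ k < (theQs L f).length, P ((theQs L f).getD k [])) ↔
      (∀ q ∈ L, P (eqQ q)) ∧ P (parQ f) ∧ P (pellQ d) ∧ (∀ i < d, P (domQ d i)) := by
  rw [forall_getD]
  simp only [theQs, List.mem_append, List.mem_map, List.mem_cons, List.not_mem_nil, or_false,
    List.mem_range]
  constructor
  · intro h
    exact ⟨fun q hq => h _ (Or.inl (Or.inl ⟨q, hq, rfl⟩)), h _ (Or.inl (Or.inr (Or.inl rfl))),
      h _ (Or.inl (Or.inr (Or.inr rfl))), fun i hi => h _ (Or.inr ⟨i, hi, rfl⟩)⟩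
  · rintro ⟨h1, h2, h3, h4⟩ q ((⟨q', hq', rfl⟩ | rfl | rfl) | ⟨i, hi, rfl⟩)
    · exact h1 q' hq'
    · exact h2
    · exact h3
    · exact h4 i hi

theorem sqrt2 {a b : ℤ} (h : a * a - 2 * (b * b) = 0) : a = 0 ∧ b = 0 := by
  have h2 : ∀ n : ℤ, (2 : ℤ) ≠ n * n := by
    intro n hn
    have h3 : n < 2 := by nlinarith
    have h4 : -2 < n := by nlinarith
    interval_cases n <;> omega
  have := (Zsqrtd.norm_eq_zero h2 (⟨a, b⟩ : ℤ√2)).1 (by rw [Zsqrtd.norm_def]; linarith)
  have ha := congrArg Zsqrtd.re this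
  have hb := congrArg Zsqrtd.im this
  exact ⟨ha, hb⟩

theorem theQs_inf (L : List (Eqn (Fin d))) (f : Fin d) (p : ℕ) (v : ℕ → ℤ) (h0 : v 0 = 0)
    (h : ∀ k < (theQs L f).length, qv p ((theQs L f).getD k []) v = 0) :
    ∀ i ≤ nn d, v i = 0 := by
  rw [forall_theQs L f (fun q => qv p q v = 0)] at h
  obtain ⟨-, -, h3, h4⟩ := h
  rw [qv_pellQ, h0, mul_zero, sub_zero] at h3
  obtain ⟨y1, y2⟩ := sqrt2 h3
  have h5 : ∀ i < d, v (i + 1) = 0 ∧ v (d + 3 + 4 * i) = 0 ∧ v (d + 3 + 4 * i + 1) = 0 ∧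
      v (d + 3 + 4 * i + 2) = 0 ∧ v (d + 3 + 4 * i + 3) = 0 := by
    intro i hi
    have := h4 i hi
    rw [qv_domQ, y1, mul_zero] at this
    have e1 := mul_self_nonneg (v (i + 1))
    have e2 := mul_self_nonneg (v (d + 3 + 4 * i))
    have e3 := mul_self_nonneg (v (d + 3 + 4 * i + 1))
    have e4 := mul_self_nonneg (v (d + 3 + 4 * i + 2))
    have e5 := mul_self_nonneg (v (d + 3 + 4 * i + 3))
    refine ⟨?_, ?_, ?_, ?_, ?_⟩ <;> apply mul_self_eq_zero.1 <;> linarith
  intro i hi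
  rw [nn] at hi
  rcases Nat.eq_zero_or_pos i with rfl | hi0
  · exact h0
  rcases Nat.lt_or_ge (i - 1) d with h6 | h6
  · have := (h5 (i - 1) h6).1
    rwa [Nat.sub_add_cancel hi0] at this
  rcases Nat.lt_or_ge i (d + 3) with h7 | h7
  · have : i = d + 1 ∨ i = d + 2 := by omega
    rcases this with rfl | rfl
    · exact y1
    · exact y2
  have h8 := h5 ((i - (d + 3)) / 4) (by omega)
  have h9 : i = d + 3 + 4 * ((i - (d + 3)) / 4) + (i - (d + 3)) % 4 := by omega
  have h10 : (i - (d + 3)) % 4 < 4 := Nat.mod_lt _ (by norm_num)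
  generalize (i - (d + 3)) / 4 = a at *
  generalize (i - (d + 3)) % 4 = b at *
  have : b = 0 ∨ b = 1 ∨ b = 2 ∨ b = 3 := by omega
  rcases this with rfl | rfl | rfl | rfl
  · rw [h9]; exact h8.2.1
  · rw [h9]; exact h8.2.2.1
  · rw [h9]; exact h8.2.2.2.1
  · rw [h9]; exact h8.2.2.2.2

theorem pell_large (B : ℕ) : ∃ a b : ℤ, 0 ≤ b ∧ (B : ℤ) ≤ a ∧ a * a - 2 * (b * b) - 1 = 0 := by
  induction B with
  | zero => exact ⟨1, 0, by norm_num, by norm_num, by norm_num⟩
  | succ B ih =>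
    obtain ⟨a, b, hb, ha, h⟩ := ih
    have ha1 : 1 ≤ a := by
      by_contra h'
      have : a = 0 := by
        have : (0 : ℤ) ≤ B := Int.natCast_nonneg B
        omega
      rw [this] at h
      nlinarith
    refine ⟨3 * a + 4 * b, 2 * a + 3 * b, by linarith, ?_, by linarith⟩
    push_cast
    linarith

theorem theQs_iff (L : List (Eqn (Fin d))) (f : Fin d) (p : ℕ) :
    (∃ v : ℕ → ℤ, v 0 = 1 ∧ ∀ k < (theQs L f).length, qv p ((theQs L f).getD k []) v = 0) ↔
    ∃ x : Fin d → ℤ, x f = 1 - 4 * p ∧ ∀ q ∈ L, q.Holds x := by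
  constructor
  · rintro ⟨v, h0, h⟩
    rw [forall_theQs L f (fun q => qv p q v = 0)] at h
    obtain ⟨h1, h2, -, -⟩ := h
    refine ⟨fun i => v (i + 1), ?_, ?_⟩
    · rw [qv_parQ, h0] at h2
      linarith
    · intro q hq
      have := h1 q hq
      rw [qv_eqQ, h0] at this
      simp only [Eqn.Holds]
      linarith
  · rintro ⟨x, hf, hL⟩
    obtain ⟨a, b, hb, ha, hab⟩ := pell_large (∑ i, (x i).natAbs)
    have hle : ∀ i, 0 ≤ a * a - x i * x i := by
      intro i
      have h1 : (x i).natAbs ≤ ∑ i, (x i).natAbs :=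
        Finset.single_le_sum (f := fun i => (x i).natAbs) (fun _ _ => Nat.zero_le _)
          (Finset.mem_univ i)
      have h2 : |x i| ≤ a := by
        rw [Int.abs_eq_natAbs]
        exact le_trans (by exact_mod_cast h1) ha
      have h3 := abs_le.1 h2
      nlinarith
    have hfs : ∀ i, ∃ w : ℕ → ℤ, a * a - x i * x i - w 0 * w 0 - w 1 * w 1 - w 2 * w 2 -
        w 3 * w 3 = 0 := by
      intro i
      obtain ⟨a', b', c', d', h⟩ := Nat.sum_four_squares (a * a - x i * x i).toNat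
      refine ⟨fun j => if j = 0 then a' else if j = 1 then b' else if j = 2 then c' else d', ?_⟩
      have h1 : ((a * a - x i * x i).toNat : ℤ) = a * a - x i * x i := Int.toNat_of_nonneg (hle i)
      have h2 : ((a' ^ 2 + b' ^ 2 + c' ^ 2 + d' ^ 2 : ℕ) : ℤ) = a * a - x i * x i := by
        rw [h, h1]
      push_cast at h2
      simp
      linarith
    choose w hw using hfs
    let v : ℕ → ℤ := fun i => if i = 0 then 1 else if h : i - 1 < d then x ⟨i - 1, h⟩ else
      if i = d + 1 then a else if i = d + 2 then b else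
      if h : (i - (d + 3)) / 4 < d then w ⟨(i - (d + 3)) / 4, h⟩ ((i - (d + 3)) % 4) else 0
    have v0 : v 0 = 1 := by simp [v]
    have vx : ∀ i : Fin d, v (i + 1) = x i := by
      intro i
      simp [v]
    have vy1 : v (d + 1) = a := by
      simp [v]
    have vy2 : v (d + 2) = b := by
      simp [v]
    have vw : ∀ (i : Fin d) (j : ℕ), j < 4 → v (d + 3 + 4 * i + j) = w i j := by
      intro i j hj
      have h1 : ¬ (d + 3 + 4 * (i : ℕ) + j = 0) := by omega
      have h2 : ¬ (d + 3 + 4 * (i : ℕ) + j - 1 < d) := by omega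
      have h3 : ¬ (d + 3 + 4 * (i : ℕ) + j = d + 1) := by omega
      have h4 : ¬ (d + 3 + 4 * (i : ℕ) + j = d + 2) := by omega
      have h5 : (d + 3 + 4 * (i : ℕ) + j - (d + 3)) / 4 = i := by omega
      have h6 : (d + 3 + 4 * (i : ℕ) + j - (d + 3)) % 4 = j := by omega
      simp only [v, h1, h2, h3, h4, if_false, dif_neg, not_false_eq_true, h5, h6, i.2, dite_true]
    refine ⟨v, v0, ?_⟩
    rw [forall_theQs L f (fun q => qv p q v = 0)]
    refine ⟨?_, ?_, ?_, ?_⟩
    · intro q hq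
      have := hL q hq
      rw [qv_eqQ, v0, vx, vx, vx, vx, vx]
      simp only [Eqn.Holds] at this
      linarith
    · rw [qv_parQ, v0, vx, hf]
      ring
    · rw [qv_pellQ, v0, vy1, vy2]
      linarith
    · intro i hi
      have h1 := hw ⟨i, hi⟩
      rw [qv_domQ, vy1]
      have e1 := vx ⟨i, hi⟩
      have e2 := vw ⟨i, hi⟩ 0 (by norm_num)
      have e3 := vw ⟨i, hi⟩ 1 (by norm_num)
      have e4 := vw ⟨i, hi⟩ 2 (by norm_num)
      have e5 := vw ⟨i, hi⟩ 3 (by norm_num)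
      simp only [add_zero] at e1 e2 e3 e4 e5
      rw [e1, e2, e3, e4, e5]
      exact h1

end Pool.Agent.H615R2.Tri
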