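import Mathlib
import Pool.Agent.H615R2.Tri.Enc
import Pool.Agent.H615R2.Tri.Sys

set_option autoImplicit false

namespace Pool.Agent.H615R2.Tri

theorem main :
    ¬ (ComputablePred (fun L : List (List (List ℕ × ℕ × ℕ)) =>
      ∃ f ∈ Ideal.span {q : MvPolynomial ℕ ℚ | q ∈ L.map (fun p =>
          (p.map (fun t => MvPolynomial.C ((t.2.1 : ℚ) - (t.2.2 : ℚ)) *
            (t.1.map (MvPolynomial.X : ℕ → MvPolynomial ℕ ℚ)).prod)).sum)},
        f ≠ 0 ∧ f.support.card ≤ 3)) := by
  intro hp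
  obtain ⟨S, hre, hnc⟩ := exists_halting
  obtain ⟨d, f, L, hL⟩ := exists_system_fin S hre
  apply hnc
  have h1 := comp_pred hp (LL_computable (theQs L f) (nn d))
  refine h1.of_eq fun p => ?_
  rw [span_LL, ideal_iff (theQs_bd L f) (theQs_inf L f p), theQs_iff, hL]
  constructor
  · rintro ⟨m, hm, h⟩
    have : p = m := by omega
    rwa [this]
  · intro h
    exact ⟨p, h, rfl⟩

end Pool.Agent.H615R2.Tri
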